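import Pool.Agent.Helper30.Pleth3

set_option autoImplicit false
set_option linter.unusedSectionVars false

namespace Pool.Agent.Helper30.EvenBlock

open Finset

section chains

variable {X : Type*}

/-- Pull back of setoids along the quotient map. -/
def emb (r : Setoid X) : Setoid (Quotient r) ↪ Setoid X where
  toFun s := s.comap (Quotient.mk r)
  inj' := by
    intro s t h
    ext a b
    induction a using Quotient.inductionOn with
    | h x =>
      induction b using Quotient.inductionOn with
      | h y => exact Setoid.ext_iff.mp h x y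

lemma emb_rel (r : Setoid X) (s : Setoid (Quotient r)) (a b : X) :
    emb r s a b ↔ s (Quotient.mk r a) (Quotient.mk r b) := Iff.rfl

lemma le_emb (r : Setoid X) (s : Setoid (Quotient r)) : r ≤ emb r s := by
  intro a b h
  rw [emb_rel, Quotient.sound h]

lemma emb_le_emb (r : Setoid X) (s t : Setoid (Quotient r)) : emb r s ≤ emb r t ↔ s ≤ t := by
  constructor
  · intro h a b hab
    induction a using Quotient.inductionOn with
    | h x =>
      induction b using Quotient.inductionOn with
      | h y => exact h hab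
  · intro h a b hab
    exact h hab

lemma card_emb (r : Setoid X) (s : Setoid (Quotient r)) :
    Nat.card (Quotient (emb r s)) = Nat.card (Quotient s) := by
  apply Nat.card_congr
  refine (Setoid.comapQuotientEquiv (Quotient.mk r) s).trans ?_
  refine (Equiv.setCongr ?_).trans (Equiv.Set.univ _)
  rw [Set.range_eq_univ]
  exact Quotient.mk_surjective.comp Quotient.mk_surjective

lemma comap_emb (σ : Equiv.Perm X) (r : Setoid X) (hr : Setoid.comap σ r = r)
    (s : Setoid (Quotient r)) :
    Setoid.comap σ (emb r s) = emb r (Setoid.comap (qperm σ r hr) s) := by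
  ext a b
  rfl

lemma exists_emb (r t : Setoid X) (h : r ≤ t) : ∃ s, emb r s = t := by
  refine ⟨Setoid.ker (Quotient.lift (Quotient.mk t) (fun a b hab => Quotient.sound (h hab))), ?_⟩
  ext a b
  rw [emb_rel, Setoid.ker_def]
  exact ⟨fun h1 => Quotient.exact h1, fun h1 => Quotient.sound h1⟩

variable [Finite X]

lemma card_quot_le {r t : Setoid X} (h : r ≤ t) :
    Nat.card (Quotient t) ≤ Nat.card (Quotient r) := by
  apply Nat.card_le_card_of_surjective
    (Quotient.lift (Quotient.mk t) (fun a b hab => Quotient.sound (h hab)) : Quotient r → Quotient t)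
  intro q
  induction q using Quotient.inductionOn with
  | h x => exact ⟨Quotient.mk r x, rfl⟩

lemma eq_of_card_quot {r t : Setoid X} (h : r ≤ t)
    (hc : Nat.card (Quotient t) = Nat.card (Quotient r)) : r = t := by
  let f : Quotient r → Quotient t :=
    Quotient.lift (Quotient.mk t) (fun a b hab => Quotient.sound (h hab))
  have hs : Function.Surjective f := by
    intro q
    induction q using Quotient.inductionOn with
    | h x => exact ⟨Quotient.mk r x, rfl⟩
  have hb : Function.Bijective f := (Nat.bijective_iff_surjective_and_card f).mpr ⟨hs, hc.symm⟩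
  ext a b
  refine ⟨fun h1 => h h1, fun h1 => ?_⟩
  have : f (Quotient.mk r a) = f (Quotient.mk r b) := Quotient.sound h1
  exact Quotient.exact (hb.1 this)

/-- Chains of invariant setoids with an even number `≤ 2k` of classes. -/
def ChainP (k : ℕ) (σ : Equiv.Perm X) (C : Finset (Setoid X)) : Prop :=
  IsChain (· ≤ ·) (C : Set (Setoid X)) ∧
  (∀ r ∈ C, ∃ j : ℕ, 1 ≤ j ∧ j ≤ k ∧ Nat.card (Quotient r) = 2 * j) ∧
  (∀ r ∈ C, Setoid.comap σ r = r)

open Classical in
/-- Signed count of the chains. -/
noncomputable def chi (k : ℕ) (σ : Equiv.Perm X) : ℤ :=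
  ∑ C ∈ univ.filter (fun C : Finset (Setoid X) => ChainP k σ C), (-1) ^ (k + C.card)

lemma chi_zero (σ : Equiv.Perm X) : chi 0 σ = 1 := by
  classical
  rw [chi]
  have : univ.filter (fun C : Finset (Setoid X) => ChainP 0 σ C) = {∅} := by
    ext C
    simp only [mem_filter, mem_univ, true_and, mem_singleton]
    constructor
    · intro h
      rw [Finset.eq_empty_iff_forall_notMem]
      intro r hr
      obtain ⟨j, h1, h2, -⟩ := h.2.1 r hr
      omega
    · rintro rfl
      refine ⟨by simp, by simp, by simp⟩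
  rw [this]
  simp

lemma chainP_succ_of_not (k : ℕ) (σ : Equiv.Perm X) (C : Finset (Setoid X)) :
    (ChainP (k + 1) σ C ∧ ¬ ∃ r ∈ C, Nat.card (Quotient r) = 2 * (k + 1)) ↔ ChainP k σ C := by
  constructor
  · rintro ⟨⟨h1, h2, h3⟩, h4⟩
    refine ⟨h1, ?_, h3⟩
    intro r hr
    obtain ⟨j, hj1, hj2, hj3⟩ := h2 r hr
    refine ⟨j, hj1, ?_, hj3⟩
    by_contra h5
    have : j = k + 1 := by omega
    exact h4 ⟨r, hr, by rw [hj3, this]⟩
  · rintro ⟨h1, h2, h3⟩
    refine ⟨⟨h1, ?_, h3⟩, ?_⟩
    · intro r hr
      obtain ⟨j, hj1, hj2, hj3⟩ := h2 r hr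
      exact ⟨j, hj1, by omega, hj3⟩
    · rintro ⟨r, hr, h5⟩
      obtain ⟨j, hj1, hj2, hj3⟩ := h2 r hr
      omega

lemma chainP_insert (k : ℕ) (σ : Equiv.Perm X) (r : Setoid X) (hr : Setoid.comap σ r = r)
    (hc : Nat.card (Quotient r) = 2 * (k + 1)) (C : Finset (Setoid (Quotient r)))
    (hC : ChainP k (qperm σ r hr) C) [DecidableEq (Setoid X)] :
    ChainP (k + 1) σ (insert r (C.map (emb r))) := by
  obtain ⟨h1, h2, h3⟩ := hC
  refine ⟨?_, ?_, ?_⟩
  · rw [Finset.coe_insert]
    apply IsChain.insert
    · rw [Finset.coe_map]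
      rintro _ ⟨s, hs, rfl⟩ _ ⟨t, ht, rfl⟩ hne
      have hne' : s ≠ t := fun h => hne (by rw [h])
      rcases h1 hs ht hne' with h | h
      · left; exact (emb_le_emb r s t).mpr h
      · right; exact (emb_le_emb r t s).mpr h
    · rintro t ht -
      rw [Finset.coe_map] at ht
      obtain ⟨s, -, rfl⟩ := ht
      left
      exact le_emb r s
  · intro t ht
    rw [Finset.mem_insert, Finset.mem_map] at ht
    rcases ht with rfl | ⟨s, hs, rfl⟩
    · exact ⟨k + 1, by omega, le_refl _, hc⟩
    · obtain ⟨j, hj1, hj2, hj3⟩ := h2 s hs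
      exact ⟨j, hj1, by omega, by rw [card_emb, hj3]⟩
  · intro t ht
    rw [Finset.mem_insert, Finset.mem_map] at ht
    rcases ht with rfl | ⟨s, hs, rfl⟩
    · exact hr
    · rw [comap_emb σ r hr, h3 s hs]

lemma notMem_map (k : ℕ) (σ : Equiv.Perm X) (r : Setoid X) (hr : Setoid.comap σ r = r)
    (C : Finset (Setoid (Quotient r)))
    (hC : ChainP k (qperm σ r hr) C) (t : Setoid X) (hc : Nat.card (Quotient t) = 2 * (k + 1)) :
    t ∉ C.map (emb r) := by
  intro h
  rw [Finset.mem_map] at h
  obtain ⟨s, hs, rfl⟩ := h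
  obtain ⟨j, hj1, hj2, hj3⟩ := hC.2.1 s hs
  rw [card_emb, hj3] at hc
  omega

lemma exists_chain (k : ℕ) (σ : Equiv.Perm X) (C : Finset (Setoid X))
    (hC : ChainP (k + 1) σ C) (r : Setoid X) (hrC : r ∈ C)
    (hc : Nat.card (Quotient r) = 2 * (k + 1)) (hr : Setoid.comap σ r = r)
    [DecidableEq (Setoid X)] :
    ∃ C' : Finset (Setoid (Quotient r)), ChainP k (qperm σ r hr) C' ∧
      insert r (C'.map (emb r)) = C := by
  classical
  obtain ⟨h1, h2, h3⟩ := hC
  have key : ∀ t ∈ C, t ≠ r → (∃ s, emb r s = t) ∧ ∃ j : ℕ, 1 ≤ j ∧ j ≤ k ∧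
      Nat.card (Quotient t) = 2 * j := by
    intro t ht hne
    obtain ⟨j, hj1, hj2, hj3⟩ := h2 t ht
    rcases h1 hrC ht hne.symm with h | h
    · refine ⟨exists_emb r t h, j, hj1, ?_, hj3⟩
      by_contra h5
      have hj : j = k + 1 := by omega
      exact hne (eq_of_card_quot h (by rw [hj3, hc, hj])).symm
    · exfalso
      have h6 := card_quot_le h
      have hj : j = k + 1 := by omega
      exact hne (eq_of_card_quot h (by rw [hj3, hc, hj]))
  refine ⟨univ.filter (fun s => emb r s ∈ C.erase r), ⟨?_, ?_, ?_⟩, ?_⟩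
  · intro s hs t ht hne
    simp only [coe_filter, mem_univ, true_and, Set.mem_ofPred_eq, mem_erase] at hs ht
    have hne' : emb r s ≠ emb r t := fun h => hne ((emb r).injective h)
    rcases h1 hs.2 ht.2 hne' with h | h
    · left; exact (emb_le_emb r s t).mp h
    · right; exact (emb_le_emb r t s).mp h
  · intro s hs
    simp only [mem_filter, mem_univ, true_and, mem_erase] at hs
    obtain ⟨-, j, hj1, hj2, hj3⟩ := key _ hs.2 hs.1
    exact ⟨j, hj1, hj2, by rw [← hj3, card_emb]⟩
  · intro s hs
    simp only [mem_filter, mem_univ, true_and, mem_erase] at hs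
    apply (emb r).injective
    rw [← comap_emb]
    exact h3 _ hs.2
  · ext t
    rw [Finset.mem_insert, Finset.mem_map]
    constructor
    · rintro (rfl | ⟨s, hs, rfl⟩)
      · exact hrC
      · simp only [mem_filter, mem_univ, true_and, mem_erase] at hs
        exact hs.2
    · intro ht
      by_cases hne : t = r
      · left; exact hne
      · right
        obtain ⟨⟨s, rfl⟩, -⟩ := key t ht hne
        exact ⟨s, by simp [ht, hne], rfl⟩

open Classical in
lemma chi_succ (k : ℕ) (σ : Equiv.Perm X) :
    chi (k + 1) σ = - chi k σ +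
      ∑ r : {r : Setoid X // Setoid.comap σ r = r ∧ Nat.card (Quotient r) = 2 * (k + 1)},
        chi k (qperm σ r.1 r.2.1) := by
  rw [chi, ← Finset.sum_filter_add_sum_filter_not _
    (fun C => ¬ ∃ r ∈ C, Nat.card (Quotient r) = 2 * (k + 1))]
  congr 1
  · rw [chi, Finset.filter_filter]
    simp only [chainP_succ_of_not]
    rw [← Finset.sum_neg_distrib]
    apply Finset.sum_congr rfl
    intro C _
    rw [show k + 1 + C.card = (k + C.card) + 1 by ring, pow_succ]
    ring
  · simp only [chi]
    rw [Finset.sum_sigma']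
    symm
    refine Finset.sum_bij (fun (p : Σ r : {r : Setoid X // Setoid.comap σ r = r ∧
      Nat.card (Quotient r) = 2 * (k + 1)}, Finset (Setoid (Quotient r.1))) _ =>
        insert p.1.1 (p.2.map (emb p.1.1))) ?_ ?_ ?_ ?_
    · rintro ⟨r, C⟩ hC
      simp only [mem_sigma, mem_univ, true_and, mem_filter] at hC
      simp only [mem_filter, mem_univ, true_and, not_not]
      exact ⟨chainP_insert k σ r.1 r.2.1 r.2.2 C hC, r.1, by simp, r.2.2⟩
    · rintro ⟨r, C⟩ hC ⟨r', C'⟩ hC' h
      simp only [mem_sigma, mem_univ, true_and, mem_filter] at hC hC'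
      simp only at h
      have hrr : r = r' := by
        apply Subtype.ext
        have h1 : r.1 ∈ insert r'.1 (C'.map (emb r'.1)) := by
          rw [← h]; simp
        rw [Finset.mem_insert] at h1
        rcases h1 with h1 | h1
        · exact h1
        · exact absurd h1 (notMem_map k σ r'.1 r'.2.1 C' hC' r.1 r.2.2)
      subst hrr
      have h2 := congrArg (fun S => Finset.erase S r.1) h
      beta_reduce at h2
      rw [Finset.erase_insert (notMem_map k σ r.1 r.2.1 C hC r.1 r.2.2),
        Finset.erase_insert (notMem_map k σ r.1 r.2.1 C' hC' r.1 r.2.2)] at h2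
      rw [Finset.map_injective _ h2]
    · intro C hC
      simp only [mem_filter, mem_univ, true_and, not_not] at hC
      obtain ⟨hC, r, hrC, hc⟩ := hC
      have hr := hC.2.2 r hrC
      obtain ⟨C', hC', heq⟩ := exists_chain k σ C hC r hrC hc hr
      exact ⟨⟨⟨r, hr, hc⟩, C'⟩, by simp [hC'], heq⟩
    · rintro ⟨r, C⟩ hC
      simp only [mem_sigma, mem_univ, true_and, mem_filter] at hC
      rw [Finset.card_insert_of_notMem (notMem_map k σ r.1 r.2.1 C hC r.1 r.2.2), card_map]
      rw [show k + 1 + (C.card + 1) = (k + C.card) + 2 by ring, pow_add _ (k + C.card) 2]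
      simp

end chains

end Pool.Agent.Helper30.EvenBlock
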