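import Mathlib

set_option autoImplicit false

namespace Pool.Agent.Helper30.EvenBlock

open Finset

section glue

variable {X : Type*} {ι : Type*}

/-- Restriction of a setoid to a fibre. -/
def restr (g : X → ι) (r : Setoid X) (i : ι) : Setoid {x // g x = i} := r.comap Subtype.val

/-- Gluing setoids on the fibres of a function. -/
def glue (g : X → ι) (s : ∀ i, Setoid {x // g x = i}) : Setoid X where
  r x y := ∃ h : g x = g y, (s (g y)) ⟨x, h⟩ ⟨y, rfl⟩
  iseqv := by
    refine ⟨?_, ?_, ?_⟩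
    · intro x
      exact ⟨rfl, (s (g x)).refl' _⟩
    · rintro x y ⟨h, h1⟩
      refine ⟨h.symm, ?_⟩
      have key : ∀ (i : ι) (hx : g x = i) (hy : g y = i),
          (s (g y)) ⟨x, h⟩ ⟨y, rfl⟩ → (s i) ⟨y, hy⟩ ⟨x, hx⟩ := by
        intro i hx hy h2
        subst hy
        exact (s (g y)).symm' h2
      exact key (g x) rfl h.symm h1
    · rintro x y z ⟨h, h1⟩ ⟨h', h2⟩
      refine ⟨h.trans h', ?_⟩
      have key : ∀ (i : ι) (hx : g x = i) (hy : g y = i),
          (s (g y)) ⟨x, h⟩ ⟨y, rfl⟩ → (s i) ⟨x, hx⟩ ⟨y, hy⟩ := by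
        intro i hx hy h2
        subst hy
        exact h2
      exact (s (g z)).trans' (key (g z) (h.trans h') h' h1) h2

lemma glue_rel (g : X → ι) (s : ∀ i, Setoid {x // g x = i}) (i : ι) (x y : X) (hx : g x = i)
    (hy : g y = i) : glue g s x y ↔ s i ⟨x, hx⟩ ⟨y, hy⟩ := by
  subst hy
  exact ⟨fun ⟨_, h⟩ => h, fun h => ⟨hx, h⟩⟩

lemma glue_eq (g : X → ι) (s : ∀ i, Setoid {x // g x = i}) {x y : X} (h : glue g s x y) :
    g x = g y := h.1

lemma restr_glue (g : X → ι) (s : ∀ i, Setoid {x // g x = i}) (i : ι) :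
    restr g (glue g s) i = s i := by
  ext ⟨x, hx⟩ ⟨y, hy⟩
  exact glue_rel g s i x y hx hy

lemma glue_restr (g : X → ι) (r : Setoid X) (h : ∀ x y, r x y → g x = g y) :
    glue g (fun i => restr g r i) = r := by
  ext x y
  constructor
  · rintro ⟨_, h2⟩
    exact h2
  · intro h2
    exact ⟨h x y h2, h2⟩

/-- The permutation induced on a fibre. -/
def fperm (σ : Equiv.Perm X) (g : X → ι) (hg : ∀ x, g (σ x) = g x) (i : ι) :
    Equiv.Perm {x // g x = i} := σ.subtypePerm (fun x => by rw [hg x])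

/-- Setoids below the kernel of `g`, fibre by fibre. -/
def glueEquiv (σ : Equiv.Perm X) (g : X → ι) (hg : ∀ x, g (σ x) = g x) (w : ι → ℕ) :
    {r : Setoid X // Setoid.comap σ r = r ∧ (∀ x y, r x y → g x = g y) ∧
        ∀ i, Nat.card (Quotient (restr g r i)) = w i} ≃
      (∀ i, {s : Setoid {x // g x = i} // Setoid.comap (fperm σ g hg i) s = s ∧
        Nat.card (Quotient s) = w i}) where
  toFun r := fun i => ⟨restr g r.1 i, by
    refine ⟨?_, r.2.2.2 i⟩
    ext ⟨x, hx⟩ ⟨y, hy⟩
    exact Setoid.ext_iff.mp r.2.1 x y⟩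
  invFun s := ⟨glue g (fun i => (s i).1), by
    refine ⟨?_, ?_, ?_⟩
    · ext x y
      rw [Setoid.comap_rel]
      constructor
      · intro h
        have h1 : g x = g y := by
          have := glue_eq _ _ h
          rwa [hg, hg] at this
        rw [glue_rel g _ (g y) (σ x) (σ y) (by rw [hg, h1]) (by rw [hg])] at h
        rw [glue_rel g _ (g y) x y h1 rfl]
        exact (Setoid.ext_iff.mp (s (g y)).2.1 ⟨x, h1⟩ ⟨y, rfl⟩).mp h
      · intro h
        have h1 : g x = g y := glue_eq _ _ h
        rw [glue_rel g _ (g y) (σ x) (σ y) (by rw [hg, h1]) (by rw [hg])]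
        rw [glue_rel g _ (g y) x y h1 rfl] at h
        exact (Setoid.ext_iff.mp (s (g y)).2.1 ⟨x, h1⟩ ⟨y, rfl⟩).mpr h
    · intro x y h
      exact glue_eq _ _ h
    · intro i
      rw [restr_glue]
      exact (s i).2.2⟩
  left_inv r := by
    apply Subtype.ext
    exact glue_restr g r.1 r.2.2.1
  right_inv s := by
    funext i
    apply Subtype.ext
    exact restr_glue g _ i

lemma card_glue [Fintype ι] (σ : Equiv.Perm X) (g : X → ι)
    (hg : ∀ x, g (σ x) = g x) (w : ι → ℕ) :
    Nat.card {r : Setoid X // Setoid.comap σ r = r ∧ (∀ x y, r x y → g x = g y) ∧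
        ∀ i, Nat.card (Quotient (restr g r i)) = w i} =
      ∏ i, Nat.card {s : Setoid {x // g x = i} // Setoid.comap (fperm σ g hg i) s = s ∧
        Nat.card (Quotient s) = w i} := by
  rw [Nat.card_congr (glueEquiv σ g hg w), Nat.card_pi]

/-- Induced permutation on a quotient. -/
def qperm (σ : Equiv.Perm X) (r : Setoid X) (h : Setoid.comap σ r = r) :
    Equiv.Perm (Quotient r) :=
  Quotient.congr σ (fun a b => (Setoid.ext_iff.mp h a b).symm)

@[simp] lemma qperm_mk (σ : Equiv.Perm X) (r : Setoid X) (h : Setoid.comap σ r = r) (x : X) :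
    qperm σ r h (Quotient.mk r x) = Quotient.mk r (σ x) := rfl

/-- Functions on the quotient. -/
def liftEquiv (σ : Equiv.Perm X) (r : Setoid X) (h : Setoid.comap σ r = r) (w : ι → ℕ) :
    {f : Quotient r → ι // (∀ y, f (qperm σ r h y) = f y) ∧ ∀ i, Nat.card {y // f y = i} = w i} ≃
    {g : X → ι // (∀ x, g (σ x) = g x) ∧ (∀ x y, r x y → g x = g y) ∧
        ∀ i, Nat.card (Quotient (restr g r i)) = w i} where
  toFun f := ⟨fun x => f.1 (Quotient.mk r x), by
    refine ⟨?_, ?_, ?_⟩
    · intro x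
      exact f.2.1 (Quotient.mk r x)
    · intro x y hxy
      exact congrArg f.1 (Quotient.sound hxy)
    · intro i
      rw [← f.2.2 i]
      symm
      exact Nat.card_congr (Equiv.subtypeQuotientEquivQuotientSubtype
        (fun x => f.1 (Quotient.mk r x) = i) (fun y => f.1 y = i) (fun a => Iff.rfl)
        (fun x y => Iff.rfl))⟩
  invFun g := ⟨Quotient.lift g.1 (fun a b hab => g.2.2.1 a b hab), by
    refine ⟨?_, ?_⟩
    · intro y
      induction y using Quotient.inductionOn with
      | h x => exact g.2.1 x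
    · intro i
      rw [← g.2.2.2 i]
      exact Nat.card_congr (Equiv.subtypeQuotientEquivQuotientSubtype
        (fun x => g.1 x = i) (fun y => Quotient.lift g.1 (fun a b hab => g.2.2.1 a b hab) y = i)
        (fun a => Iff.rfl) (fun x y => Iff.rfl))⟩
  left_inv f := by
    apply Subtype.ext
    funext y
    induction y using Quotient.inductionOn with
    | h x => rfl
  right_inv g := rfl

end glue

end Pool.Agent.Helper30.EvenBlock
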