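import Mathlib

set_option autoImplicit false

namespace Pool.Agent.Helper30.EvenBlock

open Finset

section key

variable {Y : Type*} [Fintype Y] [DecidableEq Y] (τ : Equiv.Perm Y)

/-- Invariant finite sets. -/
def InvF (U : Finset Y) : Prop := ∀ y, τ y ∈ U ↔ y ∈ U

/-- Swapped finite sets. -/
def SwF (U : Finset Y) : Prop := ∀ y, τ y ∈ U ↔ y ∉ U

instance (U : Finset Y) : Decidable (InvF τ U) := by unfold InvF; infer_instance
instance (U : Finset Y) : Decidable (SwF τ U) := by unfold SwF; infer_instance

lemma InvF.compl {τ : Equiv.Perm Y} {U : Finset Y} (h : InvF τ U) : InvF τ Uᶜ := by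
  intro y; simp [h y]

lemma SwF.compl {τ : Equiv.Perm Y} {U : Finset Y} (h : SwF τ U) : SwF τ Uᶜ := by
  intro y; simp [h y]

omit [Fintype Y] in
lemma InvF.symmDiff {τ : Equiv.Perm Y} {U V : Finset Y} (h : InvF τ U) (h' : InvF τ V) :
    InvF τ (_root_.symmDiff U V) := by
  intro y; simp [Finset.mem_symmDiff, h y, h' y]

omit [Fintype Y] in
lemma SwF.symmDiff {τ : Equiv.Perm Y} {U V : Finset Y} (h : SwF τ U) (h' : InvF τ V) :
    SwF τ (_root_.symmDiff U V) := by
  intro y; simp only [Finset.mem_symmDiff, h y, h' y]; tauto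

omit [Fintype Y] in
lemma SwF.symmDiff' {τ : Equiv.Perm Y} {U V : Finset Y} (h : SwF τ U) (h' : SwF τ V) :
    InvF τ (_root_.symmDiff U V) := by
  intro y; simp only [Finset.mem_symmDiff, h y, h' y]; tauto

omit [Fintype Y] in
lemma card_symmDiff_parity (U V : Finset Y) :
    (Even (symmDiff U V).card ↔ (Even U.card ↔ Even V.card)) := by
  have h1 : (symmDiff U V).card = (U \ V).card + (V \ U).card := by
    rw [symmDiff_def, Finset.sup_eq_union, Finset.card_union_of_disjoint]
    exact disjoint_sdiff_sdiff
  have h2 := Finset.card_sdiff_add_card_inter U V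
  have h3 := Finset.card_sdiff_add_card_inter V U
  rw [Finset.inter_comm V U] at h3
  rw [h1]
  simp only [Nat.even_iff]
  omega

/-- If every invariant set has even size there is a swapped set. -/
lemma exists_swapped (h : ∀ U, InvF τ U → Even U.card) : ∃ T, SwF τ T := by
  classical
  -- odd powers have no fixed point
  have hodd : ∀ (y : Y) (m : ℤ), Odd m → (τ ^ m) y ≠ y := by
    intro y m hm hfix
    let O : Finset Y := univ.filter (fun z => z ∈ MulAction.orbit (Subgroup.zpowers τ) y)
    have hO : InvF τ O := by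
      intro z
      simp only [O, mem_filter, mem_univ, true_and, MulAction.mem_orbit_iff]
      constructor
      · rintro ⟨⟨g, hg⟩, hgz⟩
        refine ⟨⟨τ⁻¹ * g, Subgroup.mul_mem _ (Subgroup.inv_mem _ (Subgroup.mem_zpowers τ)) hg⟩, ?_⟩
        change (τ⁻¹ * g) y = z
        change g y = τ z at hgz
        simp [Equiv.Perm.mul_apply, hgz]
      · rintro ⟨⟨g, hg⟩, hgz⟩
        refine ⟨⟨τ * g, Subgroup.mul_mem _ (Subgroup.mem_zpowers τ) hg⟩, ?_⟩
        change (τ * g) y = τ z
        change g y = z at hgz
        simp [Equiv.Perm.mul_apply, hgz]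
    have hc : O.card = Function.minimalPeriod (τ • ·) y := by
      rw [MulAction.minimalPeriod_eq_card, Fintype.card_subtype]
    have h1 : ((Function.minimalPeriod (τ • ·) y : ℕ) : ℤ) ∣ m := by
      rw [← MulAction.zpow_smul_eq_iff_minimalPeriod_dvd]
      exact hfix
    have h2 := h O hO
    rw [hc] at h2
    have h3 : (2 : ℤ) ∣ m := by
      refine dvd_trans ?_ h1
      exact_mod_cast h2.two_dvd
    exact (Int.not_even_iff_odd.mpr hm) (even_iff_two_dvd.mpr h3)
  -- representatives
  let s : Setoid Y := Equiv.Perm.SameCycle.setoid τ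
  let ρ : Y → Y := fun y => (Quotient.mk s y).out
  have hρ : ∀ y, Equiv.Perm.SameCycle τ (ρ y) y := fun y => Quotient.mk_out (s := s) y
  have hρτ : ∀ y, ρ (τ y) = ρ y := by
    intro y
    have : Quotient.mk s (τ y) = Quotient.mk s y := by
      apply Quotient.sound
      change Equiv.Perm.SameCycle τ (τ y) y
      simpa using Equiv.Perm.SameCycle.refl τ y
    simp only [ρ, this]
  refine ⟨univ.filter (fun y => ∃ i : ℤ, Even i ∧ (τ ^ i) (ρ y) = y), ?_⟩
  intro y
  simp only [mem_filter, mem_univ, true_and, hρτ]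
  constructor
  · rintro ⟨i, hi, h1⟩ ⟨j, hj, h2⟩
    have h3 : (τ ^ (1 + j - i)) (τ y) = τ y := by
      have : (τ ^ (1 + j - i)) ((τ ^ i) (ρ y)) = τ y := by
        rw [← Equiv.Perm.mul_apply, ← zpow_add]
        have : 1 + j - i + i = 1 + j := by ring
        rw [this, zpow_add, Equiv.Perm.mul_apply, h2, zpow_one]
      rw [h1] at this
      exact this
    refine hodd _ _ ?_ h3
    rw [add_sub_assoc]
    exact Odd.add_even odd_one (hj.sub hi)
  · intro hn
    obtain ⟨i, hi⟩ := hρ y
    rcases Int.even_or_odd i with he | ho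
    · exact absurd ⟨i, he, hi⟩ hn
    · refine ⟨1 + i, ?_, ?_⟩
      · exact Odd.add_odd odd_one ho
      · rw [zpow_add, Equiv.Perm.mul_apply, hi, zpow_one]

/-- number of swapped sets plus number of odd invariant sets is the number of even ones. -/
lemma count_even :
    (univ.filter (fun U : Finset Y => SwF τ U)).card +
      (univ.filter (fun U : Finset Y => InvF τ U ∧ ¬ Even U.card)).card =
      (univ.filter (fun U : Finset Y => InvF τ U ∧ Even U.card)).card := by
  classical
  by_cases h : ∃ S, InvF τ S ∧ ¬ Even S.card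
  · obtain ⟨S, hS, hSo⟩ := h
    have h1 : (univ.filter (fun U : Finset Y => SwF τ U)) = ∅ := by
      rw [Finset.filter_eq_empty_iff]
      intro T _ hT
      apply hSo
      have h2 : (S \ T).card = (S ∩ T).card := by
        rw [← Finset.card_map τ.toEmbedding (s := S ∩ T)]
        congr 1
        ext z
        simp only [mem_sdiff, mem_map_equiv, mem_inter]
        have e1 := hS (τ.symm z)
        have e2 := hT (τ.symm z)
        simp only [Equiv.apply_symm_apply] at e1 e2
        rw [e1, e2]
        simp
      have h3 := Finset.card_sdiff_add_card_inter S T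
      rw [← h3, h2]
      exact ⟨_, rfl⟩
    rw [h1, card_empty, zero_add]
    refine Finset.card_nbij' (fun U => symmDiff U S) (fun U => symmDiff U S) ?_ ?_ ?_ ?_
    · intro U hU
      simp only [coe_filter, mem_univ, true_and, Set.mem_ofPred_eq] at hU ⊢
      refine ⟨hU.1.symmDiff hS, ?_⟩
      rw [card_symmDiff_parity]; tauto
    · intro U hU
      simp only [coe_filter, mem_univ, true_and, Set.mem_ofPred_eq] at hU ⊢
      refine ⟨hU.1.symmDiff hS, ?_⟩
      rw [card_symmDiff_parity]; tauto
    · intro U _; simp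
    · intro U _; simp
  · push Not at h
    obtain ⟨T, hT⟩ := exists_swapped τ h
    have h1 : (univ.filter (fun U : Finset Y => InvF τ U ∧ ¬ Even U.card)) = ∅ := by
      rw [Finset.filter_eq_empty_iff]
      rintro U _ ⟨h2, h3⟩
      exact h3 (h U h2)
    rw [h1, card_empty, add_zero]
    refine Finset.card_nbij' (fun U => symmDiff T U) (fun U => symmDiff T U) ?_ ?_ ?_ ?_
    · intro U hU
      simp only [coe_filter, mem_univ, true_and, Set.mem_ofPred_eq] at hU ⊢
      have := SwF.symmDiff' hT hU
      exact ⟨this, h _ this⟩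
    · intro U hU
      simp only [coe_filter, mem_univ, true_and, Set.mem_ofPred_eq] at hU ⊢
      exact hT.symmDiff hU.1
    · intro U _; simp
    · intro U _; simp

lemma two_mul_mem (P : Finset Y → Prop) [DecidablePred P] (hP : ∀ U, P U → P Uᶜ) (y₀ : Y) :
    2 * (univ.filter (fun U : Finset Y => y₀ ∈ U ∧ P U)).card =
      (univ.filter (fun U : Finset Y => P U)).card := by
  classical
  have h1 : (univ.filter (fun U : Finset Y => y₀ ∈ U ∧ P U)).card =
      (univ.filter (fun U : Finset Y => y₀ ∉ U ∧ P U)).card := by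
    refine Finset.card_nbij' (fun U => Uᶜ) (fun U => Uᶜ) ?_ ?_ ?_ ?_
    · intro U hU
      simp only [coe_filter, mem_univ, true_and, Set.mem_ofPred_eq] at hU ⊢
      exact ⟨by simp [hU.1], hP _ hU.2⟩
    · intro U hU
      simp only [coe_filter, mem_univ, true_and, Set.mem_ofPred_eq] at hU ⊢
      exact ⟨by simp [hU.1], hP _ hU.2⟩
    · intro U _; simp
    · intro U _; simp
  rw [two_mul]
  nth_rewrite 2 [h1]
  rw [← Finset.card_union_of_disjoint]
  · congr 1
    ext U
    simp only [mem_union, mem_filter, mem_univ, true_and]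
    tauto
  · rw [Finset.disjoint_filter]
    tauto

lemma count_pointed (y₀ : Y) :
    (univ.filter (fun U : Finset Y => y₀ ∈ U ∧ U ≠ univ ∧ (InvF τ U ∨ SwF τ U))).card =
      (univ.filter (fun U : Finset Y => InvF τ U ∧ Even U.card ∧ U.Nonempty)).card := by
  classical
  have h1 := count_even τ
  have h2 := two_mul_mem (fun U => InvF τ U) (fun U h => h.compl) y₀
  have h3 := two_mul_mem (fun U => SwF τ U) (fun U h => h.compl) y₀
  have h4 : (univ.filter (fun U : Finset Y => InvF τ U)).card =
      (univ.filter (fun U : Finset Y => InvF τ U ∧ Even U.card)).card +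
      (univ.filter (fun U : Finset Y => InvF τ U ∧ ¬ Even U.card)).card := by
    rw [← Finset.card_union_of_disjoint]
    · congr 1
      ext U
      simp only [mem_union, mem_filter, mem_univ, true_and]
      by_cases h : Even U.card <;> simp [h]
    · rw [Finset.disjoint_filter]
      tauto
  have h5 : (univ.filter (fun U : Finset Y => InvF τ U ∧ Even U.card)).card =
      (univ.filter (fun U : Finset Y => InvF τ U ∧ Even U.card ∧ U.Nonempty)).card + 1 := by
    have : (univ.filter (fun U : Finset Y => InvF τ U ∧ Even U.card)) =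
        insert ∅ (univ.filter (fun U : Finset Y => InvF τ U ∧ Even U.card ∧ U.Nonempty)) := by
      ext U
      simp only [mem_insert, mem_filter, mem_univ, true_and]
      rcases U.eq_empty_or_nonempty with rfl | h
      · simp [InvF]
      · simp [h, h.ne_empty]
    rw [this, Finset.card_insert_of_notMem]
    simp
  have h6 : (univ.filter (fun U : Finset Y => y₀ ∈ U ∧ InvF τ U)).card +
      (univ.filter (fun U : Finset Y => y₀ ∈ U ∧ SwF τ U)).card =
      (univ.filter (fun U : Finset Y => y₀ ∈ U ∧ U ≠ univ ∧ (InvF τ U ∨ SwF τ U))).card + 1 := by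
    have hu : InvF τ (univ : Finset Y) := by intro y; simp
    have hnu : ¬ SwF τ (univ : Finset Y) := by
      intro h; have := h y₀; simp at this
    have : insert univ (univ.filter
        (fun U : Finset Y => y₀ ∈ U ∧ U ≠ univ ∧ (InvF τ U ∨ SwF τ U))) =
        (univ.filter (fun U : Finset Y => y₀ ∈ U ∧ InvF τ U)) ∪
        (univ.filter (fun U : Finset Y => y₀ ∈ U ∧ SwF τ U)) := by
      ext U
      simp only [mem_insert, mem_union, mem_filter, mem_univ, true_and]
      by_cases hU : U = univ
      · subst hU; simp [hu]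
      · simp [hU]; tauto
    rw [← Finset.card_union_of_disjoint, ← this, Finset.card_insert_of_notMem]
    · simp
    · rw [Finset.disjoint_filter]
      rintro U _ ⟨_, h7⟩ ⟨_, h8⟩
      have e1 := h7 y₀
      have e2 := h8 y₀
      tauto
  omega

/-- Two-class setoids with a base point correspond to sets. -/
noncomputable def twoEquiv (y₀ : Y) :
    {s : Setoid Y // Setoid.comap τ s = s ∧ Nat.card (Quotient s) = 2} ≃
      {U : Finset Y // y₀ ∈ U ∧ U ≠ univ ∧ (InvF τ U ∨ SwF τ U)} := by
  classical
  refine
  { toFun := fun s => ⟨univ.filter (fun y => s.1 y y₀), ?_, ?_, ?_⟩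
    invFun := fun U => ⟨Setoid.ker (fun y => y ∈ U.1), ?_, ?_⟩
    left_inv := ?_
    right_inv := ?_ }
  · simp
  · intro h
    have h2 := s.2.2
    rw [Nat.card_eq_two_iff' (Quotient.mk s.1 y₀)] at h2
    obtain ⟨q, hq, -⟩ := h2
    induction q using Quotient.inductionOn with
    | h z =>
      apply hq
      apply Quotient.sound
      have : z ∈ (univ : Finset Y) := mem_univ z
      rw [← h] at this
      simpa using this
  · have h2 := s.2.2
    have h3 : ∀ a b, s.1 (τ a) (τ b) ↔ s.1 a b := by
      intro a b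
      exact Setoid.ext_iff.mp s.2.1 a b
    rw [Nat.card_eq_two_iff' (Quotient.mk s.1 y₀)] at h2
    have h4 : ∀ a b, ¬ s.1 a y₀ → ¬ s.1 b y₀ → s.1 a b := by
      intro a b ha hb
      obtain ⟨q, -, hq⟩ := h2
      have e1 := hq (Quotient.mk s.1 a) (fun h => ha (Quotient.exact h))
      have e2 := hq (Quotient.mk s.1 b) (fun h => hb (Quotient.exact h))
      exact Quotient.exact (e1.trans e2.symm)
    by_cases h : s.1 (τ y₀) y₀
    · left
      intro y
      simp only [mem_filter, mem_univ, true_and]
      rw [← h3 y y₀]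
      exact ⟨fun h5 => s.1.trans' h5 (s.1.symm' h), fun h5 => s.1.trans' h5 h⟩
    · right
      intro y
      simp only [mem_filter, mem_univ, true_and]
      rw [← h3 y y₀]
      constructor
      · intro h5 h6
        exact h (s.1.trans' (s.1.symm' h6) h5)
      · intro h5
        by_contra h6
        exact h5 (h4 _ _ h6 h)
  · ext a b
    rw [Setoid.comap_rel, Setoid.ker_def, Setoid.ker_def]
    rcases U.2.2.2 with h | h
    · simp [h a, h b]
    · simp only [h a, h b, eq_iff_iff]; tauto
  · rw [Nat.card_eq_two_iff' (Quotient.mk _ y₀)]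
    have h2 := U.2.2.1
    have : ∃ z, z ∉ U.1 := by
      by_contra h
      push Not at h
      exact h2 (by ext z; simp [h z])
    obtain ⟨z, hz⟩ := this
    refine ⟨Quotient.mk _ z, ?_, ?_⟩
    · intro h
      have := Quotient.exact h
      change (z ∈ U.1) = (y₀ ∈ U.1) at this
      rw [eq_iff_iff] at this
      exact hz (this.mpr U.2.1)
    · intro q hq
      induction q using Quotient.inductionOn with
      | h w =>
        apply Quotient.sound
        change (w ∈ U.1) = (z ∈ U.1)
        have : w ∉ U.1 := by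
          intro hw
          apply hq
          apply Quotient.sound
          change (w ∈ U.1) = (y₀ ∈ U.1)
          simp [hw, U.2.1]
        simp [this, hz]
  · intro s
    have h2 := s.2.2
    rw [Nat.card_eq_two_iff' (Quotient.mk s.1 y₀)] at h2
    have h4 : ∀ a b, ¬ s.1 a y₀ → ¬ s.1 b y₀ → s.1 a b := by
      intro a b ha hb
      obtain ⟨q, -, hq⟩ := h2
      have e1 := hq (Quotient.mk s.1 a) (fun h => ha (Quotient.exact h))
      have e2 := hq (Quotient.mk s.1 b) (fun h => hb (Quotient.exact h))
      exact Quotient.exact (e1.trans e2.symm)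
    apply Subtype.ext
    ext a b
    rw [Setoid.ker_def]
    simp only [mem_filter, mem_univ, true_and, eq_iff_iff]
    constructor
    · intro h
      by_cases ha : s.1 a y₀
      · exact s.1.trans' ha (s.1.symm' (h.mp ha))
      · exact h4 a b ha (fun hb => ha (h.mpr hb))
    · intro h
      exact ⟨fun h5 => s.1.trans' (s.1.symm' h) h5, fun h5 => s.1.trans' h h5⟩
  · intro U
    apply Subtype.ext
    ext z
    simp only [mem_filter, mem_univ, true_and]
    rw [Setoid.ker_def]
    simp [U.2.1]

lemma card_two :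
    Nat.card {s : Setoid Y // Setoid.comap τ s = s ∧ Nat.card (Quotient s) = 2} =
      (univ.filter (fun U : Finset Y => InvF τ U ∧ Even U.card ∧ U.Nonempty)).card := by
  classical
  rcases isEmpty_or_nonempty Y with hY | ⟨⟨y₀⟩⟩
  · have h1 : IsEmpty {s : Setoid Y // Setoid.comap τ s = s ∧ Nat.card (Quotient s) = 2} := by
      constructor
      rintro ⟨s, -, hs⟩
      have : IsEmpty (Quotient s) := ⟨fun q => Quotient.inductionOn q (fun y => hY.false y)⟩
      simp at hs
    rw [Nat.card_of_isEmpty]
    symm
    rw [Finset.card_eq_zero, Finset.filter_eq_empty_iff]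
    rintro U _ ⟨-, -, ⟨y, _⟩⟩
    exact hY.false y
  · rw [Nat.card_congr (twoEquiv τ y₀), ← count_pointed τ y₀, Nat.card_eq_fintype_card,
      Fintype.card_subtype]

omit [Fintype Y] [DecidableEq Y] in
lemma card_one_of_nonempty (hY : Nonempty Y) :
    Nat.card {s : Setoid Y // Setoid.comap τ s = s ∧ Nat.card (Quotient s) = 1} = 1 := by
  rw [Nat.card_eq_one_iff_unique]
  have key : ∀ s : Setoid Y, Nat.card (Quotient s) = 1 → s = ⊤ := by
    intro s hs
    rw [Nat.card_eq_one_iff_unique] at hs
    obtain ⟨h1, -⟩ := hs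
    ext a b
    simp only [Setoid.top_def, Pi.top_apply, Prop.top_eq_true, iff_true]
    exact Quotient.exact (Subsingleton.elim (Quotient.mk s a) (Quotient.mk s b))
  refine ⟨⟨?_⟩, ⟨⟨⊤, ?_, ?_⟩⟩⟩
  · rintro ⟨s, -, hs⟩ ⟨t, -, ht⟩
    simp only [Subtype.mk.injEq]
    rw [key s hs, key t ht]
  · ext a b; simp [Setoid.comap_rel, Setoid.top_def]
  · rw [Nat.card_eq_one_iff_unique]
    obtain ⟨y⟩ := hY
    refine ⟨⟨?_⟩, ⟨Quotient.mk _ y⟩⟩
    intro p q
    induction p using Quotient.inductionOn with
    | h a =>
      induction q using Quotient.inductionOn with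
      | h b =>
        apply Quotient.sound
        trivial

omit [Fintype Y] [DecidableEq Y] in
lemma card_one_of_isEmpty (hE : IsEmpty Y) :
    Nat.card {s : Setoid Y // Setoid.comap τ s = s ∧ Nat.card (Quotient s) = 1} = 0 := by
  have h1 : IsEmpty {s : Setoid Y // Setoid.comap τ s = s ∧ Nat.card (Quotient s) = 1} := by
    constructor
    rintro ⟨s, -, hs⟩
    have : IsEmpty (Quotient s) := ⟨fun q => Quotient.inductionOn q (fun y => hE.false y)⟩
    simp at hs
  rw [Nat.card_of_isEmpty]

end key

end Pool.Agent.Helper30.EvenBlock
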