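import Pool.Agent.Helper30.Chains

set_option autoImplicit false
set_option linter.unusedSectionVars false

namespace Pool.Agent.Helper30.EvenBlock

open Finset MvPowerSeries

lemma sum_list_comm {ι α : Type*} (s : Finset ι) (L : List α) (f : α → ι → ℤ) :
    ∑ i ∈ s, (L.map (fun a => f a i)).sum = (L.map (fun a => ∑ i ∈ s, f a i)).sum := by
  induction L with
  | nil => simp
  | cons a L ih => simp [Finset.sum_add_distrib, ih]

universe u

open Classical in
/-- The signed chain count is a nonnegative combination of words. -/
theorem main_chi (k : ℕ) : ∀ (X : Type u) [Fintype X] [DecidableEq X] (σ : Equiv.Perm X),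
    Even (Fintype.card X) → 0 < Fintype.card X →
    chi k σ = coeff (ind (univ : Finset X)) (FF (sA σ) (sB σ) k) := by
  induction k with
  | zero =>
    intro X _ _ σ hev hpos
    rw [chi_zero]
    simp only [FF, LL, List.map_cons, List.map_nil, List.sum_cons, List.sum_nil, ev_true, ev_nil,
      EO, mul_one, add_zero]
    rw [sA, coeff_serP, if_pos]
    refine ⟨by intro y; simp, by rwa [card_univ], ?_⟩
    rw [← Finset.card_pos, card_univ]
    exact hpos
  | succ k ih =>
    intro X _ _ σ hev hpos
    rw [chi_succ, ih X σ hev hpos]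
    have h1 : ∀ r : {r : Setoid X // Setoid.comap σ r = r ∧
        Nat.card (Quotient r) = 2 * (k + 1)},
        chi k (qperm σ r.1 r.2.1) = ((LL k).map (fun p =>
          coeff (ind (univ : Finset (Quotient r.1)))
            (ev (sA (qperm σ r.1 r.2.1)) (sB (qperm σ r.1 r.2.1)) (p.1 ++ p.2)))).sum := by
      intro r
      have hc : Fintype.card (Quotient r.1) = 2 * (k + 1) := by
        rw [← Nat.card_eq_fintype_card]; exact r.2.2
      rw [ih (Quotient r.1) (qperm σ r.1 r.2.1) (by rw [hc]; exact even_two_mul _)
        (by rw [hc]; omega)]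
      rw [FF, map_list_sum, List.map_map]
      congr 1
      apply List.map_congr_left
      intro p hp
      simp only [Function.comp_def]
      apply coeff_lowest
      rw [hc, wt_LL k p hp]
    rw [Finset.sum_congr rfl (fun r _ => h1 r)]
    rw [sum_list_comm]
    have h2 : ∀ p ∈ LL k, ∑ r : {r : Setoid X // Setoid.comap σ r = r ∧
        Nat.card (Quotient r) = 2 * (k + 1)}, coeff (ind (univ : Finset (Quotient r.1)))
            (ev (sA (qperm σ r.1 r.2.1)) (sB (qperm σ r.1 r.2.1)) (p.1 ++ p.2)) =
          coeff (ind (univ : Finset X)) (EO (sA σ) (sB σ) (p.1 ++ p.2)).1 := by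
      intro p hp
      have hw : wt (p.1 ++ p.2) = 2 * (k + 1) := by rw [wt_append]; exact wt_LL k p hp
      have h3 := pleth σ (p.1 ++ p.2) (fun r hr =>
        coeff (ind (univ : Finset (Quotient r)))
            (ev (sA (qperm σ r hr)) (sB (qperm σ r hr)) (p.1 ++ p.2))) (by
          intro r hr hc
          apply coeff_ev_count
          rw [← Nat.card_eq_fintype_card]
          exact hc)
      rw [← EO_add, map_add, coeff_odd σ (p.1 ++ p.2) (by
        rw [hw]; rw [Nat.even_iff] at hev; omega), add_zero] at h3
      rw [← h3]
      rw [hw]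
    rw [List.map_congr_left h2]
    have h4 := congrArg (coeff (ind (univ : Finset X))) (FF_succ (sA σ) (sB σ) k)
    rw [map_add, map_list_sum, List.map_map] at h4
    simp only [Function.comp_def] at h4
    rw [h4]
    ring

end Pool.Agent.Helper30.EvenBlock
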