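import Mathlib

set_option autoImplicit false

namespace Pool.Agent.Helper30.EvenBlock

open Finset MvPowerSeries

section ind

variable {X : Type*} [DecidableEq X]

/-- The squarefree exponent vector of a finite set. -/
noncomputable def ind (S : Finset X) : X →₀ ℕ :=
  Finsupp.onFinset S (fun x => if x ∈ S then 1 else 0) (by intro x hx; by_contra h; simp [h] at hx)

@[simp] lemma ind_apply (S : Finset X) (x : X) : ind S x = if x ∈ S then 1 else 0 := rfl

lemma ind_inj {S T : Finset X} (h : ind S = ind T) : S = T := by
  ext x
  have := DFunLike.congr_fun h x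
  simp only [ind_apply] at this
  by_cases h1 : x ∈ S <;> by_cases h2 : x ∈ T <;> simp_all

lemma ind_degree (S : Finset X) : (ind S).sum (fun _ n => n) = S.card := by
  rw [Finsupp.sum_of_support_subset (s := S)]
  · simp
  · intro x hx
    by_contra h
    simp [h] at hx
  · simp

variable {R : Type*} [CommSemiring R]

lemma coeff_mul_ind (T : Finset X) (φ ψ : MvPowerSeries X R) :
    coeff (ind T) (φ * ψ) = ∑ U ∈ T.powerset, coeff (ind U) φ * coeff (ind (T \ U)) ψ := by
  rw [coeff_mul]
  symm
  refine Finset.sum_bij (fun U _ => (ind U, ind (T \ U))) ?_ ?_ ?_ ?_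
  · intro U hU
    rw [Finset.mem_powerset] at hU
    rw [HasAntidiagonal.mem_antidiagonal]
    ext x
    simp only [Finsupp.coe_add, Pi.add_apply, ind_apply, mem_sdiff]
    by_cases h1 : x ∈ U
    · simp [h1, hU h1]
    · by_cases h2 : x ∈ T <;> simp [h1, h2]
  · intro U _ V _ h
    exact ind_inj (congrArg Prod.fst h)
  · rintro ⟨a, b⟩ hab
    rw [HasAntidiagonal.mem_antidiagonal] at hab
    have key : ∀ x, a x + b x = if x ∈ T then 1 else 0 := by
      intro x
      have := DFunLike.congr_fun hab x
      simpa using this
    refine ⟨T.filter (fun x => a x = 1), by simp, ?_⟩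
    ext x
    · have := key x
      by_cases h : x ∈ T
      · simp only [h, if_true] at this
        have h1 : a x = 0 ∨ a x = 1 := by omega
        rcases h1 with h1 | h1 <;> simp [h, h1]
      · simp only [h, if_false] at this
        have h1 : a x = 0 := by omega
        simp [h, h1]
    · have := key x
      by_cases h : x ∈ T
      · simp only [h, if_true] at this
        have h1 : (a x = 0 ∧ b x = 1) ∨ (a x = 1 ∧ b x = 0) := by omega
        rcases h1 with ⟨h1, h2⟩ | ⟨h1, h2⟩ <;> simp [h, h1, h2]
      · simp only [h, if_false] at this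
        have h1 : a x = 0 ∧ b x = 0 := by omega
        simp [h, h1]
  · intro U _
    rfl

lemma coeff_prod_ind [Fintype X] {ι : Type*} [Fintype ι] [DecidableEq ι]
    (φ : ι → MvPowerSeries X R) :
    coeff (ind (univ : Finset X)) (∏ i, φ i) =
      ∑ g : X → ι, ∏ i, coeff (ind (univ.filter (fun x => g x = i))) (φ i) := by
  rw [coeff_prod]
  symm
  refine Finset.sum_bij (fun g _ => Finsupp.equivFunOnFinite.symm
    (fun i => ind (univ.filter (fun x => g x = i)))) ?_ ?_ ?_ ?_
  · intro g _
    rw [Finset.mem_finsuppAntidiag]
    refine ⟨?_, by simp⟩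
    ext x
    simp only [Finsupp.equivFunOnFinite_symm_apply_apply, Finsupp.coe_finsetSum, Finset.sum_apply,
      ind_apply, mem_filter, mem_univ, true_and, if_true]
    simp
  · intro g _ g' _ h
    funext x
    have h1 := DFunLike.congr_fun (DFunLike.congr_fun h (g x)) x
    simp only [Finsupp.equivFunOnFinite_symm_apply_apply, ind_apply, mem_filter, mem_univ,
      true_and, if_true] at h1
    by_contra h2
    have h3 : ¬ (g' x = g x) := fun h => h2 h.symm
    simp [h3] at h1
  · intro l hl
    rw [Finset.mem_finsuppAntidiag] at hl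
    have key : ∀ x, ∑ i, l i x = 1 := by
      intro x
      have := DFunLike.congr_fun hl.1 x
      simpa using this
    have hex : ∀ x, ∃ i, l i x = 1 ∧ ∀ j, j ≠ i → l j x = 0 := by
      intro x
      have h := key x
      have : ∃ i, l i x ≠ 0 := by
        by_contra hcon
        push Not at hcon
        simp [hcon] at h
      obtain ⟨i, hi⟩ := this
      rw [← Finset.add_sum_erase univ _ (mem_univ i)] at h
      have h0 : ∑ j ∈ univ.erase i, l j x = 0 := by omega
      refine ⟨i, by omega, ?_⟩
      intro j hj
      rw [Finset.sum_eq_zero_iff] at h0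
      exact h0 j (by simp [hj])
    choose g hg using hex
    refine ⟨g, mem_univ _, ?_⟩
    ext i x
    simp only [Finsupp.equivFunOnFinite_symm_apply_apply, ind_apply, mem_filter, mem_univ,
      true_and]
    by_cases h : g x = i
    · subst h
      simp [(hg x).1]
    · rw [if_neg h, (hg x).2 i (fun h' => h h'.symm)]
  · intro g _
    rfl

end ind

end Pool.Agent.Helper30.EvenBlock
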