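import Pool.Agent.Helper30.Words
import Pool.Agent.Helper30.Series
import Pool.Agent.Helper30.Key
import Pool.Agent.Helper30.Glue

set_option autoImplicit false
set_option linter.unusedSectionVars false

namespace Pool.Agent.Helper30.EvenBlock

open Finset MvPowerSeries

section ser

variable {X : Type*} [DecidableEq X]

lemma ind_support (S : Finset X) : (ind S).support = S := by
  ext x
  simp

lemma ind_deg (S : Finset X) : (ind S).degree = S.card := by
  rw [← ind_degree S]
  rfl

open Classical in
/-- Series with coefficients the indicator of a predicate on sets. -/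
noncomputable def serP (P : Finset X → Prop) : MvPowerSeries X ℤ :=
  fun m => if m = ind m.support ∧ P m.support then 1 else 0

lemma coeff_serP (P : Finset X → Prop) [DecidablePred P] (S : Finset X) :
    coeff (ind S) (serP P) = if P S then 1 else 0 := by
  have h0 : coeff (ind S) (serP P) = serP P (ind S) := rfl
  rw [h0]
  unfold serP
  rw [ind_support]
  by_cases h : P S <;> simp [h]

/-- Graded pieces: all monomials have degree at least `d` and of the same parity. -/
def G (d : ℕ) (φ : MvPowerSeries X ℤ) : Prop :=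
  ∀ m, coeff m φ ≠ 0 → d ≤ m.degree ∧ m.degree % 2 = d % 2

lemma G.mul {a b : ℕ} {φ ψ : MvPowerSeries X ℤ} (h : G a φ) (h' : G b ψ) : G (a + b) (φ * ψ) := by
  intro m hm
  rw [coeff_mul] at hm
  obtain ⟨p, hp, hne⟩ := Finset.exists_ne_zero_of_sum_ne_zero hm
  rw [HasAntidiagonal.mem_antidiagonal] at hp
  have h1 := h p.1 (left_ne_zero_of_mul hne)
  have h2 := h' p.2 (right_ne_zero_of_mul hne)
  rw [← hp, map_add]
  omega

lemma G.add {a : ℕ} {φ ψ : MvPowerSeries X ℤ} (h : G a φ) (h' : G a ψ) : G a (φ + ψ) := by
  intro m hm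
  rw [map_add] at hm
  by_cases h0 : coeff m φ = 0
  · rw [h0, zero_add] at hm
    exact h' m hm
  · exact h m h0

lemma G.mono {a b : ℕ} {φ : MvPowerSeries X ℤ} (h : G a φ) (hab : b ≤ a) (hp : a % 2 = b % 2) :
    G b φ := by
  intro m hm
  have := h m hm
  omega

lemma G_zero (a : ℕ) : G a (0 : MvPowerSeries X ℤ) := by
  intro m hm
  simp at hm

lemma G_one : G 0 (1 : MvPowerSeries X ℤ) := by
  intro m hm
  rw [coeff_one] at hm
  by_cases h : m = 0
  · subst h; simp
  · simp [h] at hm

lemma G_serP (d : ℕ) (P : Finset X → Prop) (h : ∀ S, P S → d ≤ S.card ∧ S.card % 2 = d % 2) :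
    G d (serP P) := by
  classical
  intro m hm
  change (if m = ind m.support ∧ P m.support then (1 : ℤ) else 0) ≠ 0 at hm
  by_cases hc : m = ind m.support ∧ P m.support
  · rw [hc.1, ind_deg]
    exact h _ hc.2
  · rw [if_neg hc] at hm
    exact absurd rfl hm

variable [Fintype X] (σ : Equiv.Perm X)

/-- The series of nonempty even invariant sets. -/
noncomputable def sA : MvPowerSeries X ℤ :=
  serP (fun U => InvF σ U ∧ Even U.card ∧ U.Nonempty)

/-- The series of odd invariant sets. -/
noncomputable def sB : MvPowerSeries X ℤ := serP (fun U => InvF σ U ∧ ¬ Even U.card)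

lemma G_sA : G 2 (sA σ) := by
  apply G_serP
  rintro S ⟨-, ⟨k, hk⟩, h⟩
  have := h.card_pos
  omega

lemma G_sB : G 1 (sB σ) := by
  apply G_serP
  rintro S ⟨-, h⟩
  rw [Nat.even_iff] at h
  omega

lemma G_ev (w : Word) : G (wt w) (ev (sA σ) (sB σ) w) := by
  induction w with
  | nil => simpa [wt] using G_one
  | cons b w ih =>
    cases b
    · rw [ev_false]
      have := (G_sB σ).mul ih
      rwa [add_comm] at this
    · rw [ev_true]
      have := (G_sA σ).mul ih
      rwa [add_comm] at this

lemma G_EO (w : Word) : G (wt w) (EO (sA σ) (sB σ) w).1 ∧ G (wt w + 1) (EO (sA σ) (sB σ) w).2 := by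
  induction w with
  | nil => exact ⟨by simpa [wt, EO] using G_one, by simpa [EO] using G_zero _⟩
  | cons b w ih =>
    cases b
    · simp only [EO, wt]
      refine ⟨?_, ?_⟩
      · refine G.add ?_ ?_
        · exact ((G_sB σ).mul ih.1).mono (by omega) (by omega)
        · exact ((G_sA σ).mul ih.2).mono (by omega) (by omega)
      · refine G.add ?_ ?_
        · exact ((G_sB σ).mul ih.2).mono (by omega) (by omega)
        · exact ((G_sA σ).mul ih.1).mono (by omega) (by omega)
    · simp only [EO, wt]
      refine ⟨?_, ?_⟩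
      · refine G.add (G.add ?_ ?_) ?_
        · exact ((G_sA σ).mul ih.1).mono (by omega) (by omega)
        · exact (((G_sA σ).mul (G_sB σ)).mul ih.2).mono (by omega) (by omega)
        · exact (((G_sA σ).mul (G_sA σ)).mul ih.1).mono (by omega) (by omega)
      · refine G.add (G.add ?_ ?_) ?_
        · exact ((G_sA σ).mul ih.2).mono (by omega) (by omega)
        · exact (((G_sA σ).mul (G_sB σ)).mul ih.1).mono (by omega) (by omega)
        · exact (((G_sA σ).mul (G_sA σ)).mul ih.2).mono (by omega) (by omega)

lemma EO_lowest (w : Word) : ∃ ρ, (EO (sA σ) (sB σ) w).1 = ev (sA σ) (sB σ) w + ρ ∧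
    G (wt w + 2) ρ := by
  induction w with
  | nil => exact ⟨0, by simp [EO], G_zero _⟩
  | cons b w ih =>
    obtain ⟨ρ, h1, h2⟩ := ih
    have h3 := G_EO σ w
    cases b
    · refine ⟨sB σ * ρ + sA σ * (EO (sA σ) (sB σ) w).2, ?_, ?_⟩
      · simp only [EO, ev_false]
        rw [h1]; ring
      · simp only [wt]
        refine G.add ?_ ?_
        · exact ((G_sB σ).mul h2).mono (by omega) (by omega)
        · exact ((G_sA σ).mul h3.2).mono (by omega) (by omega)
    · refine ⟨sA σ * ρ + sA σ * sB σ * (EO (sA σ) (sB σ) w).2 +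
        sA σ * sA σ * (EO (sA σ) (sB σ) w).1, ?_, ?_⟩
      · simp only [EO, ev_true]
        rw [h1]; ring
      · simp only [wt]
        refine G.add (G.add ?_ ?_) ?_
        · exact ((G_sA σ).mul h2).mono (by omega) (by omega)
        · exact (((G_sA σ).mul (G_sB σ)).mul h3.2).mono (by omega) (by omega)
        · exact (((G_sA σ).mul (G_sA σ)).mul h3.1).mono (by omega) (by omega)

/-- On a set of the right size only the lowest word contributes. -/
lemma coeff_lowest (u v : Word) (h : Fintype.card X = wt u + wt v) :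
    coeff (ind (univ : Finset X)) (ev (sA σ) (sB σ) u * (EO (sA σ) (sB σ) v).1) =
      coeff (ind (univ : Finset X)) (ev (sA σ) (sB σ) (u ++ v)) := by
  obtain ⟨ρ, h1, h2⟩ := EO_lowest σ v
  rw [h1, mul_add, map_add, ev_append]
  have h3 : G (wt u + (wt v + 2)) (ev (sA σ) (sB σ) u * ρ) := (G_ev σ u).mul h2
  have h4 : coeff (ind (univ : Finset X)) (ev (sA σ) (sB σ) u * ρ) = 0 := by
    by_contra hne
    have := h3 _ hne
    rw [ind_deg, card_univ, h] at this
    omega
  rw [h4, add_zero]

/-- On a set of the right parity the odd part does not contribute. -/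
lemma coeff_odd (w : Word) (h : (Fintype.card X) % 2 = wt w % 2) :
    coeff (ind (univ : Finset X)) (EO (sA σ) (sB σ) w).2 = 0 := by
  by_contra hne
  have := (G_EO σ w).2 _ hne
  rw [ind_deg, card_univ] at this
  omega

/-- Products of the refined letters. -/
noncomputable def sw {R : Type*} [CommSemiring R] (A B : R) (w : Word) : R :=
  (w.map (fun b => if b then A * (1 + A + B) else A + B)).prod

lemma EO_add {R : Type*} [CommSemiring R] (A B : R) (w : Word) :
    (EO A B w).1 + (EO A B w).2 = sw A B w := by
  induction w with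
  | nil => simp [EO, sw]
  | cons b w ih =>
    have : sw A B (b :: w) = (if b then A * (1 + A + B) else A + B) * sw A B w := by simp [sw]
    rw [this, ← ih]
    cases b
    · simp [EO]; ring
    · simp [EO]; ring

end ser

end Pool.Agent.Helper30.EvenBlock
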