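import Pool.Agent.Helper30.Pleth

set_option autoImplicit false
set_option linter.unusedSectionVars false

namespace Pool.Agent.Helper30.EvenBlock

open Finset MvPowerSeries

section pleth

variable {X : Type*} [Fintype X] [DecidableEq X] (σ : Equiv.Perm X)

/-- weight of a letter -/
def wl (b : Bool) : ℕ := if b then 2 else 1

lemma wt_eq_sum (w : Word) : wt w = ∑ i : Fin w.length, wl w[i] := by
  refine Eq.trans ?_ (Fin.sum_univ_fun_getElem w wl).symm
  induction w with
  | nil => simp [wt]
  | cons b w ih => cases b <;> simp [wt, wl, ih] <;> ring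

lemma coeff_oneAB (S : Finset X) :
    coeff (ind S) (1 + sA σ + sB σ) = if InvF σ S then 1 else 0 := by
  rw [map_add, map_add, sA, sB, coeff_serP, coeff_serP, coeff_one]
  rcases S.eq_empty_or_nonempty with rfl | h
  · have : ind (∅ : Finset X) = 0 := by ext x; simp
    simp [this, InvF]
  · have : ind S ≠ 0 := by
      intro h0
      obtain ⟨x, hx⟩ := h
      have := DFunLike.congr_fun h0 x
      simp [hx] at this
    by_cases h1 : InvF σ S <;> by_cases h2 : Even S.card <;> simp [this, h1, h2, h]

lemma coeff_sx (T : Finset X) :
    coeff (ind T) (sA σ * (1 + sA σ + sB σ)) =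
      if InvF σ T then
        ((T.powerset.filter (fun U => InvF σ U ∧ Even U.card ∧ U.Nonempty)).card : ℤ) else 0 := by
  rw [coeff_mul_ind]
  simp only [coeff_oneAB]
  simp only [sA, coeff_serP]
  split_ifs with hT
  · rw [Finset.card_filter, Nat.cast_sum]
    apply Finset.sum_congr rfl
    intro U hU
    by_cases h1 : InvF σ U ∧ Even U.card ∧ U.Nonempty
    · have h2 : InvF σ (T \ U) := by
        intro y
        simp [hT y, h1.1 y]
      simp [h1, h2]
    · simp [h1]
  · apply Finset.sum_eq_zero
    intro U hU
    rw [Finset.mem_powerset] at hU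
    by_cases h1 : InvF σ U ∧ Even U.card ∧ U.Nonempty
    · by_cases h2 : InvF σ (T \ U)
      · exfalso
        apply hT
        intro y
        have e1 := h1.1 y
        have e2 := h2 y
        have e3 := @hU y
        have e4 := @hU (σ y)
        simp only [mem_sdiff] at e2
        tauto
      · simp [h2]
    · simp [h1]

lemma coeff_sy (T : Finset X) :
    coeff (ind T) (sA σ + sB σ) = if InvF σ T then (if T.Nonempty then 1 else 0) else 0 := by
  rw [map_add, sA, sB, coeff_serP, coeff_serP]
  by_cases h1 : InvF σ T
  · by_cases h2 : Even T.card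
    · simp [h1, h2]
    · have h3 : T.Nonempty := by
        rw [Finset.nonempty_iff_ne_empty]
        rintro rfl
        simp at h2
      simp [h1, h2, h3]
  · simp [h1]

variable {ι : Type*} [DecidableEq ι]

lemma invF_fiber (g : X → ι) (hg : ∀ x, g (σ x) = g x) (i : ι) :
    InvF σ (univ.filter (fun x => g x = i)) := by
  intro y
  simp [hg y]

lemma card_sub (g : X → ι) (hg : ∀ x, g (σ x) = g x) (i : ι) :
    ((univ.filter (fun x => g x = i)).powerset.filter
      (fun U => InvF σ U ∧ Even U.card ∧ U.Nonempty)).card =
    (univ.filter (fun U : Finset {x // g x = i} =>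
      InvF (fperm σ g hg i) U ∧ Even U.card ∧ U.Nonempty)).card := by
  symm
  refine Finset.card_bij (fun U _ => U.map (Function.Embedding.subtype _)) ?_ ?_ ?_
  · intro U hU
    simp only [mem_filter, mem_univ, true_and] at hU
    simp only [mem_filter, mem_powerset]
    refine ⟨?_, ?_, ?_, ?_⟩
    · intro x hx
      simp only [mem_map, Function.Embedding.subtype_apply] at hx
      obtain ⟨y, -, rfl⟩ := hx
      simpa using y.2
    · intro y
      simp only [mem_map, Function.Embedding.subtype_apply, Subtype.exists, exists_and_right,
        exists_eq_right]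
      constructor
      · rintro ⟨h, h1⟩
        have h2 : g y = i := by rw [hg] at h; exact h
        refine ⟨h2, ?_⟩
        exact (hU.1 ⟨y, h2⟩).mp h1
      · rintro ⟨h, h1⟩
        refine ⟨by rw [hg]; exact h, ?_⟩
        exact (hU.1 ⟨y, h⟩).mpr h1
    · rw [card_map]; exact hU.2.1
    · exact hU.2.2.map
  · intro U _ V _ h
    exact Finset.map_injective _ h
  · intro V hV
    simp only [mem_filter, mem_powerset] at hV
    refine ⟨V.subtype (fun x => g x = i), ?_, ?_⟩
    · have hVV : (V.subtype (fun x => g x = i)).map (Function.Embedding.subtype _) = V := by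
        rw [Finset.subtype_map, Finset.filter_eq_self]
        intro x hx
        simpa using hV.1 hx
      simp only [mem_filter, mem_univ, true_and]
      refine ⟨?_, ?_, ?_⟩
      · intro y
        simp only [mem_subtype]
        exact hV.2.1 y.1
      · have := hV.2.2.1
        rw [← hVV, card_map] at this
        exact this
      · have := hV.2.2.2
        rw [← hVV, Finset.map_nonempty] at this
        exact this
    · rw [Finset.subtype_map, Finset.filter_eq_self]
      intro x hx
      simpa using hV.1 hx

/-- The refined letter counts invariant setoids with the right number of classes. -/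
lemma coeff_letter (g : X → ι) (hg : ∀ x, g (σ x) = g x) (i : ι) (b : Bool) :
    coeff (ind (univ.filter (fun x => g x = i)))
      (if b then sA σ * (1 + sA σ + sB σ) else sA σ + sB σ) =
    (Nat.card {s : Setoid {x // g x = i} // Setoid.comap (fperm σ g hg i) s = s ∧
        Nat.card (Quotient s) = wl b} : ℤ) := by
  cases b
  · simp only [Bool.false_eq_true, if_false, wl]
    rw [coeff_sy, if_pos (invF_fiber σ g hg i)]
    split_ifs with h
    · rw [card_one_of_nonempty]
      · simp
      · obtain ⟨x, hx⟩ := h
        exact ⟨⟨x, by simpa using hx⟩⟩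
    · rw [card_one_of_isEmpty]
      · simp
      · constructor
        rintro ⟨x, hx⟩
        exact h ⟨x, by simpa using hx⟩
  · simp only [if_true, wl]
    rw [coeff_sx, if_pos (invF_fiber σ g hg i), card_sub σ g hg i, card_two]

lemma coeff_letter_zero (T : Finset X) (hT : ¬ InvF σ T) (b : Bool) :
    coeff (ind T) (if b then sA σ * (1 + sA σ + sB σ) else sA σ + sB σ) = 0 := by
  cases b
  · simp only [Bool.false_eq_true, if_false]
    rw [coeff_sy, if_neg hT]
  · simp only [if_true]
    rw [coeff_sx, if_neg hT]

lemma coeff_sw (w : Word) :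
    coeff (ind (univ : Finset X)) (sw (sA σ) (sB σ) w) =
      ∑ g : {g : X → Fin w.length // ∀ x, g (σ x) = g x},
        ∏ i : Fin w.length, (Nat.card {s : Setoid {x // g.1 x = i} //
          Setoid.comap (fperm σ g.1 g.2 i) s = s ∧ Nat.card (Quotient s) = wl w[i]} : ℤ) := by
  have h1 : sw (sA σ) (sB σ) w = ∏ i : Fin w.length,
      (if w[i] then sA σ * (1 + sA σ + sB σ) else sA σ + sB σ) := by
    rw [sw]
    exact (Fin.prod_univ_fun_getElem w
      (fun b => if b then sA σ * (1 + sA σ + sB σ) else sA σ + sB σ)).symm
  rw [h1, coeff_prod_ind]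
  rw [← Finset.sum_subset (Finset.subset_univ
    (univ.filter (fun g : X → Fin w.length => ∀ x, g (σ x) = g x)))]
  · rw [Finset.sum_subtype (univ.filter (fun g : X → Fin w.length => ∀ x, g (σ x) = g x))
      (p := fun g => ∀ x, g (σ x) = g x) (by simp)
      (fun g => ∏ i : Fin w.length, coeff (ind (univ.filter (fun x => g x = i)))
      (if w[i] then sA σ * (1 + sA σ + sB σ) else sA σ + sB σ))]
    apply Finset.sum_congr rfl
    intro g _
    apply Finset.prod_congr rfl
    intro i _
    exact coeff_letter σ g.1 g.2 i w[i]
  · intro g _ hg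
    simp only [mem_filter, mem_univ, true_and, not_forall] at hg
    obtain ⟨x, hx⟩ := hg
    apply Finset.prod_eq_zero (mem_univ (g x))
    apply coeff_letter_zero
    intro h
    have := h x
    simp only [mem_filter, mem_univ, true_and, iff_true] at this
    exact hx this

end pleth

end Pool.Agent.Helper30.EvenBlock
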