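import Pool.Agent.Helper30.Pleth2

set_option autoImplicit false
set_option linter.unusedSectionVars false

namespace Pool.Agent.Helper30.EvenBlock

open Finset MvPowerSeries

section count

variable {Y : Type*} [Fintype Y] [DecidableEq Y] (τ : Equiv.Perm Y)

lemma coeff_ev_count (w : Word) (h : Fintype.card Y = wt w) :
    coeff (ind (univ : Finset Y)) (ev (sA τ) (sB τ) w) =
      (Nat.card {f : Y → Fin w.length // (∀ y, f (τ y) = f y) ∧
        ∀ i : Fin w.length, Nat.card {y // f y = i} = wl w[i]} : ℤ) := by
  classical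
  have h1 : ev (sA τ) (sB τ) w = ∏ i : Fin w.length, (if w[i] then sA τ else sB τ) := by
    rw [ev]
    exact (Fin.prod_univ_fun_getElem w (fun b => if b then sA τ else sB τ)).symm
  rw [h1, coeff_prod_ind, Nat.card_eq_fintype_card, Fintype.card_subtype, Finset.card_filter,
    Nat.cast_sum]
  apply Finset.sum_congr rfl
  intro f _
  have h2 : ∀ (b : Bool) (S : Finset Y), coeff (ind S) (if b then sA τ else sB τ) =
      if (InvF τ S ∧ (if b then Even S.card ∧ S.Nonempty else ¬ Even S.card)) then (1 : ℤ)
      else 0 := by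
    intro b S
    cases b
    · simp only [Bool.false_eq_true, if_false]
      rw [sB, coeff_serP]
    · simp only [if_true]
      rw [sA, coeff_serP]
  simp only [h2]
  rw [Finset.prod_ite_zero]
  have hcard : ∀ i, Nat.card {y // f y = i} = (univ.filter (fun y => f y = i)).card := by
    intro i
    rw [Nat.card_eq_fintype_card, Fintype.card_subtype]
  have hsum : ∑ i : Fin w.length, (univ.filter (fun y => f y = i)).card =
      ∑ i : Fin w.length, wl w[i] := by
    rw [← wt_eq_sum, ← h, ← card_univ]
    exact (Finset.card_eq_sum_card_fiberwise (fun x _ => mem_univ (f x))).symm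
  by_cases hc : (∀ y, f (τ y) = f y) ∧ ∀ i : Fin w.length, Nat.card {y // f y = i} = wl w[i]
  · rw [if_pos hc, if_pos]
    · simp
    · intro i _
      refine ⟨invF_fiber τ f hc.1 i, ?_⟩
      have h3 := hc.2 i
      rw [hcard] at h3
      cases hb : w[i]
      · rw [hb] at h3
        simp only [wl, Bool.false_eq_true, if_false] at h3
        simp [h3]
      · rw [hb] at h3
        simp only [wl, if_true] at h3
        simp only [if_true]
        refine ⟨by rw [h3]; exact even_two, ?_⟩
        rw [← Finset.card_pos, h3]
        exact two_pos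
  · rw [if_neg hc, if_neg]
    · simp
    · intro hall
      apply hc
      have hge : ∀ i ∈ (univ : Finset (Fin w.length)), wl w[i] ≤
          (univ.filter (fun y => f y = i)).card := by
        intro i _
        obtain ⟨-, h4⟩ := hall i (mem_univ i)
        cases hb : w[i]
        · rw [hb] at h4
          simp only [Bool.false_eq_true, if_false] at h4
          simp only [wl, Bool.false_eq_true, if_false]
          rw [Nat.even_iff] at h4
          omega
        · rw [hb] at h4
          simp only [if_true] at h4
          obtain ⟨h5, h6⟩ := h4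
          simp only [wl, if_true]
          rw [Nat.even_iff] at h5
          have := h6.card_pos
          omega
      have heq := (Finset.sum_eq_sum_iff_of_le hge).mp hsum.symm
      refine ⟨?_, ?_⟩
      · intro y
        have := (hall (f y) (mem_univ _)).1 y
        simpa using this
      · intro i
        rw [hcard]
        exact (heq i (mem_univ i)).symm

end count

section pleth3

variable {X : Type*} [Finite X]

instance finiteSetoid : Finite (Setoid X) :=
  Finite.of_injective (fun r : Setoid X => fun x y => r x y) (by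
    intro r s h
    ext x y
    exact iff_of_eq (congrFun (congrFun h x) y))

open Classical in
/-- Exchange of summation for the plethysm identity. -/
lemma card_exchange (σ : Equiv.Perm X) {l : ℕ} (w : Fin l → ℕ) :
    Nat.card (Σ r : {r : Setoid X // Setoid.comap σ r = r},
      {f : Quotient r.1 → Fin l // (∀ y, f (qperm σ r.1 r.2 y) = f y) ∧
        ∀ i, Nat.card {y // f y = i} = w i}) =
    Nat.card (Σ g : {g : X → Fin l // ∀ x, g (σ x) = g x},
      (∀ i, {s : Setoid {x // g.1 x = i} // Setoid.comap (fperm σ g.1 g.2 i) s = s ∧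
        Nat.card (Quotient s) = w i})) := by
  apply Nat.card_congr
  refine (Equiv.sigmaCongrRight (fun r : {r : Setoid X // Setoid.comap σ r = r} =>
    liftEquiv σ r.1 r.2 w)).trans ?_
  refine Equiv.trans ?_ (Equiv.sigmaCongrRight
    (fun g : {g : X → Fin l // ∀ x, g (σ x) = g x} => glueEquiv σ g.1 g.2 w))
  exact
  { toFun := fun p => ⟨⟨p.2.1, p.2.2.1⟩, ⟨p.1.1, p.1.2, p.2.2.2.1, p.2.2.2.2⟩⟩
    invFun := fun p => ⟨⟨p.2.1, p.2.2.1⟩, ⟨p.1.1, p.1.2, p.2.2.2.1, p.2.2.2.2⟩⟩
    left_inv := fun p => rfl
    right_inv := fun p => rfl }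

end pleth3

noncomputable instance fintypeSetoid {X : Type*} [Finite X] : Fintype (Setoid X) :=
  Fintype.ofFinite _

section pleth4

variable {X : Type*} [Fintype X] [DecidableEq X]

open Classical in
/-- The plethysm identity. -/
lemma pleth (σ : Equiv.Perm X) (w : Word)
    (F : ∀ r : Setoid X, Setoid.comap σ r = r → ℤ)
    (hF : ∀ (r : Setoid X) (hr : Setoid.comap σ r = r), Nat.card (Quotient r) = wt w →
      F r hr = (Nat.card {f : Quotient r → Fin w.length // (∀ y, f (qperm σ r hr y) = f y) ∧
        ∀ i : Fin w.length, Nat.card {y // f y = i} = wl w[i]} : ℤ)) :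
    ∑ r : {r : Setoid X // Setoid.comap σ r = r ∧ Nat.card (Quotient r) = wt w}, F r.1 r.2.1 =
      coeff (ind (univ : Finset X)) (sw (sA σ) (sB σ) w) := by
  rw [coeff_sw]
  have h1 := card_exchange σ (fun i : Fin w.length => wl w[i])
  rw [Nat.card_sigma, Nat.card_sigma] at h1
  have h2 := congrArg (fun n : ℕ => (n : ℤ)) h1
  simp only [Nat.cast_sum, Nat.card_pi, Nat.cast_prod] at h2
  rw [← h2]
  -- reduce the sum over all invariant setoids
  have h3 : ∀ r : {r : Setoid X // Setoid.comap σ r = r}, ¬ (Nat.card (Quotient r.1) = wt w) →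
      (Nat.card {f : Quotient r.1 → Fin w.length // (∀ y, f (qperm σ r.1 r.2 y) = f y) ∧
        ∀ i : Fin w.length, Nat.card {y // f y = i} = wl w[i]} : ℤ) = 0 := by
    intro r hr
    have : IsEmpty {f : Quotient r.1 → Fin w.length // (∀ y, f (qperm σ r.1 r.2 y) = f y) ∧
        ∀ i : Fin w.length, Nat.card {y // f y = i} = wl w[i]} := by
      constructor
      rintro ⟨f, -, hf⟩
      apply hr
      rw [wt_eq_sum, ← Nat.card_congr (Equiv.sigmaFiberEquiv f), Nat.card_sigma]
      exact Finset.sum_congr rfl (fun i _ => hf i)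
    rw [Nat.card_of_isEmpty]
    rfl
  have h4 : ∀ r : {r : Setoid X // Setoid.comap σ r = r ∧ Nat.card (Quotient r) = wt w},
      F r.1 r.2.1 = (Nat.card {f : Quotient r.1 → Fin w.length //
        (∀ y, f (qperm σ r.1 r.2.1 y) = f y) ∧
        ∀ i : Fin w.length, Nat.card {y // f y = i} = wl w[i]} : ℤ) :=
    fun r => hF r.1 r.2.1 r.2.2
  rw [Finset.sum_congr rfl (fun r _ => h4 r)]
  symm
  rw [← Finset.sum_subset (Finset.subset_univ
    (univ.filter (fun r : {r : Setoid X // Setoid.comap σ r = r} =>
      Nat.card (Quotient r.1) = wt w)))]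
  · refine Finset.sum_bij (fun (r : {r : Setoid X // Setoid.comap σ r = r}) hr =>
      (⟨r.1, r.2, by simpa using hr⟩ : {r : Setoid X // Setoid.comap σ r = r ∧
        Nat.card (Quotient r) = wt w})) ?_ ?_ ?_ ?_
    · intro r _; exact mem_univ _
    · intro r _ s _ h
      apply Subtype.ext
      simpa using h
    · intro r _
      exact ⟨⟨r.1, r.2.1⟩, by simpa using r.2.2, rfl⟩
    · intro r _; rfl
  · intro r _ hr
    apply h3
    simpa using hr

end pleth4

end Pool.Agent.Helper30.EvenBlock
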