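import Pool.Agent.Helper30.Main

set_option autoImplicit false
set_option linter.unusedSectionVars false

namespace Pool.Agent.Helper30.EvenBlock

open Finset MvPowerSeries

/-- Two indexed families with the same multiset of values are related by an equivalence. -/
lemma exists_equiv_of_map_eq {α β : Type} [Fintype α] [Fintype β] (f : α → ℕ) (g : β → ℕ)
    (h : (univ : Finset α).val.map f = (univ : Finset β).val.map g) :
    ∃ e : α ≃ β, ∀ a, g (e a) = f a := by
  classical
  have h1 : ∀ c : ℕ, Fintype.card {a // f a = c} = Fintype.card {b // g b = c} := by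
    intro c
    have h2 := congrArg (Multiset.count c) h
    rw [Multiset.count_map, Multiset.count_map] at h2
    rw [Fintype.card_subtype, Fintype.card_subtype]
    have e1 : (univ.filter (fun a => f a = c)).card =
        (Multiset.filter (fun a => c = f a) (univ : Finset α).val).card := by
      simp only [Finset.card, Finset.filter_val, eq_comm]
    have e2 : (univ.filter (fun a => g a = c)).card =
        (Multiset.filter (fun a => c = g a) (univ : Finset β).val).card := by
      simp only [Finset.card, Finset.filter_val, eq_comm]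
    rw [e1, e2]
    exact h2
  exact ⟨Equiv.ofFiberEquiv (fun c => Fintype.equivOfCardEq (h1 c)),
    fun a => Equiv.ofFiberEquiv_map _ a⟩

/-- Number of invariant maps with prescribed fibre sizes. -/
noncomputable def fixc {N : ℕ} {ι : Type} [Fintype ι] [DecidableEq ι] (L : ι → ℕ)
    (σ : Equiv.Perm (Fin N)) : ℕ :=
  Nat.card {f : Fin N → ι // (∀ x, f (σ x) = f x) ∧
    ∀ i, (univ.filter (fun x => f x = i)).card = L i}

lemma fixc_congr {N : ℕ} {ι κ : Type} [Fintype ι] [DecidableEq ι] [Fintype κ] [DecidableEq κ]
    (L : ι → ℕ) (M : κ → ℕ) (e : ι ≃ κ) (he : ∀ a, M (e a) = L a) (σ : Equiv.Perm (Fin N)) :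
    fixc L σ = fixc M σ := by
  apply Nat.card_congr
  refine
  { toFun := fun f => ⟨fun x => e (f.1 x), ?_, ?_⟩
    invFun := fun f => ⟨fun x => e.symm (f.1 x), ?_, ?_⟩
    left_inv := ?_
    right_inv := ?_ }
  · intro x; simp only [f.2.1 x]
  · intro i
    have := f.2.2 (e.symm i)
    rw [← he, Equiv.apply_symm_apply] at this
    rw [← this]
    congr 1
    ext x
    simp [Equiv.eq_symm_apply]
  · intro x; simp only [f.2.1 x]
  · intro i
    have := f.2.2 (e i)
    rw [he] at this
    rw [← this]
    congr 1
    ext x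
    simp [Equiv.symm_apply_eq]
  · intro f; ext x; simp
  · intro f; ext x; simp

/-- The Young permutation character as in the statement. -/
noncomputable def young {N : ℕ} (μ : Nat.Partition N) (σ : Equiv.Perm (Fin N)) : ℕ :=
  Nat.card {f : Fin N → Fin μ.parts.toList.length //
                 (∀ x, f (σ x) = f x) ∧
                 ∀ i, (Finset.univ.filter (fun x => f x = i)).card = μ.parts.toList.get i}

/-- Nonnegative integer combinations of Young permutation characters. -/
def Rep (N : ℕ) (φ : Equiv.Perm (Fin N) → ℤ) : Prop :=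
  ∃ c : Nat.Partition N → ℕ, ∀ σ, φ σ = ∑ μ : Nat.Partition N, (c μ : ℤ) * (young μ σ : ℤ)

lemma Rep.zero (N : ℕ) : Rep N (fun _ => 0) := ⟨fun _ => 0, by simp⟩

lemma Rep.add {N : ℕ} {φ ψ : Equiv.Perm (Fin N) → ℤ} (h : Rep N φ) (h' : Rep N ψ) :
    Rep N (fun σ => φ σ + ψ σ) := by
  obtain ⟨c, hc⟩ := h
  obtain ⟨d, hd⟩ := h'
  refine ⟨fun μ => c μ + d μ, fun σ => ?_⟩
  beta_reduce
  rw [hc, hd, ← Finset.sum_add_distrib]
  apply Finset.sum_congr rfl
  intro μ _
  push_cast
  ring

lemma Rep.sum {N : ℕ} {α : Type*} (s : Finset α) (φ : α → Equiv.Perm (Fin N) → ℤ)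
    (h : ∀ a ∈ s, Rep N (φ a)) : Rep N (fun σ => ∑ a ∈ s, φ a σ) := by
  classical
  induction s using Finset.induction_on with
  | empty => simpa using Rep.zero N
  | insert a s ha ih =>
    have h1 := (h a (by simp)).add (ih (fun b hb => h b (by simp [hb])))
    simpa [Finset.sum_insert ha] using h1

lemma Rep.list_sum {N : ℕ} {α : Type*} (L : List α) (φ : α → Equiv.Perm (Fin N) → ℤ)
    (h : ∀ a ∈ L, Rep N (φ a)) : Rep N (fun σ => (L.map (fun a => φ a σ)).sum) := by
  induction L with
  | nil => simpa using Rep.zero N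
  | cons a L ih =>
    have h1 := (h a (by simp)).add (ih (fun b hb => h b (by simp [hb])))
    simpa using h1

lemma Rep.fixc {N : ℕ} {ι : Type} [Fintype ι] [DecidableEq ι] (L : ι → ℕ) (hL : ∀ i, 0 < L i) :
    Rep N (fun σ => (EvenBlock.fixc L σ : ℤ)) := by
  classical
  by_cases hs : ∑ i, L i = N
  · let μ : Nat.Partition N :=
      { parts := (univ : Finset ι).val.map L
        parts_pos := by
          intro i hi
          rw [Multiset.mem_map] at hi
          obtain ⟨a, -, rfl⟩ := hi
          exact hL a
        parts_sum := hs }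
    refine ⟨fun ν => if ν = μ then 1 else 0, fun σ => ?_⟩
    rw [Finset.sum_eq_single μ]
    · simp only [if_true, Nat.cast_one, one_mul]
      have h1 : (univ : Finset ι).val.map L =
          (univ : Finset (Fin μ.parts.toList.length)).val.map μ.parts.toList.get := by
        rw [Fin.univ_val_map, List.ofFn_get, Multiset.coe_toList]
      obtain ⟨e, he⟩ := exists_equiv_of_map_eq L μ.parts.toList.get h1
      rw [fixc_congr L μ.parts.toList.get e he σ]
      rfl
    · intro ν _ hν
      simp [hν]
    · intro h; exact absurd (mem_univ _) h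
  · refine ⟨fun _ => 0, fun σ => ?_⟩
    simp only [Nat.cast_zero, zero_mul, Finset.sum_const_zero, Nat.cast_eq_zero]
    have : IsEmpty {f : Fin N → ι // (∀ x, f (σ x) = f x) ∧
        ∀ i, (univ.filter (fun x => f x = i)).card = L i} := by
      constructor
      rintro ⟨f, -, hf⟩
      apply hs
      rw [← Finset.sum_congr rfl (fun i _ => hf i)]
      rw [← Finset.card_eq_sum_card_fiberwise (fun x _ => mem_univ (f x))]
      simp
    exact Nat.card_of_isEmpty

/-- Letter predicates on sizes. -/
def pl (b : Bool) (m : ℕ) : Prop := if b then Even m ∧ 0 < m else ¬ Even m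

lemma pl_pos (b : Bool) (m : ℕ) (h : pl b m) : 0 < m := by
  cases b
  · simp only [pl, Bool.false_eq_true, if_false, Nat.even_iff] at h
    omega
  · simp only [pl, if_true] at h
    exact h.2

open Classical in
lemma coeff_ev_eq {N : ℕ} (σ : Equiv.Perm (Fin N)) (w : Word) :
    coeff (ind (univ : Finset (Fin N))) (ev (sA σ) (sB σ) w) =
      ∑ L ∈ (univ : Finset (Fin w.length → Fin (N + 1))).filter
        (fun L => ∀ i : Fin w.length, pl w[i] (L i)),
        (fixc (fun i => (L i : ℕ)) σ : ℤ) := by
  have h1 : ev (sA σ) (sB σ) w = ∏ i : Fin w.length, (if w[i] then sA σ else sB σ) := by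
    rw [ev]
    exact (Fin.prod_univ_fun_getElem w (fun b => if b then sA σ else sB σ)).symm
  have h2 : ∀ (b : Bool) (S : Finset (Fin N)), coeff (ind S) (if b then sA σ else sB σ) =
      if (InvF σ S ∧ pl b S.card) then (1 : ℤ) else 0 := by
    intro b S
    cases b
    · simp only [Bool.false_eq_true, if_false, pl]
      rw [sB, coeff_serP]
    · simp only [if_true, pl]
      rw [sA, coeff_serP]
      simp only [Finset.card_pos]
  rw [h1, coeff_prod_ind]
  simp only [h2]
  simp only [Finset.prod_ite_zero]
  simp only [Finset.prod_const_one]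
  have h3 : ∀ L : Fin w.length → Fin (N + 1), (fixc (fun i => (L i : ℕ)) σ : ℤ) =
      ∑ f : Fin N → Fin w.length, if ((∀ x, f (σ x) = f x) ∧
        ∀ i, (univ.filter (fun x => f x = i)).card = (L i : ℕ)) then (1 : ℤ) else 0 := by
    intro L
    rw [fixc, Nat.card_eq_fintype_card, Fintype.card_subtype, Finset.card_filter, Nat.cast_sum]
    apply Finset.sum_congr rfl
    intro f _
    simp
  simp only [h3]
  rw [Finset.sum_comm]
  apply Finset.sum_congr rfl
  intro f _
  have hle : ∀ i, (univ.filter (fun x => f x = i)).card < N + 1 := by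
    intro i
    have := Finset.card_le_univ (univ.filter (fun x => f x = i))
    rw [Fintype.card_fin] at this
    omega
  let Lf : Fin w.length → Fin (N + 1) := fun i => ⟨(univ.filter (fun x => f x = i)).card, hle i⟩
  have h4 : ∀ L : Fin w.length → Fin (N + 1),
      (∀ i, (univ.filter (fun x => f x = i)).card = (L i : ℕ)) ↔ Lf = L := by
    intro L
    constructor
    · intro h
      funext i
      exact Fin.ext (h i)
    · intro h i
      rw [← h]
  simp only [h4]
  by_cases hinv : ∀ x, f (σ x) = f x
  · simp only [hinv, implies_true, true_and, Finset.sum_ite_eq]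
    congr 1
    simp only [mem_filter, mem_univ, true_and, eq_iff_iff, forall_const]
    constructor
    · intro h i
      exact (h i).2
    · intro h i
      exact ⟨invF_fiber σ f hinv i, h i⟩
  · have : ¬ ∀ i ∈ (univ : Finset (Fin w.length)), InvF σ (univ.filter (fun x => f x = i)) ∧
        pl w[i] (univ.filter (fun x => f x = i)).card := by
      intro h
      apply hinv
      intro x
      have := (h (f x) (mem_univ _)).1 x
      simpa using this
    rw [if_neg this]
    simp [hinv]

lemma Rep.ev {N : ℕ} (w : Word) :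
    Rep N (fun σ => coeff (ind (univ : Finset (Fin N))) (EvenBlock.ev (sA σ) (sB σ) w)) := by
  classical
  simp only [coeff_ev_eq]
  apply Rep.sum
  intro L hL
  rw [mem_filter] at hL
  exact Rep.fixc _ (fun i => pl_pos _ _ (hL.2 i))

lemma ev_snoc_true {R : Type*} [CommSemiring R] (A B : R) (u : Word) :
    ev A B (u ++ [true]) = ev A B u * A := by simp [ev_append]

lemma ev_snoc_false {R : Type*} [CommSemiring R] (A B : R) (u : Word) :
    ev A B (u ++ [false]) = ev A B u * B := by simp [ev_append]

lemma Rep.EO {N : ℕ} (v : Word) : ∀ u : Word,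
    Rep N (fun σ => coeff (ind (univ : Finset (Fin N)))
      (EvenBlock.ev (sA σ) (sB σ) u * (EvenBlock.EO (sA σ) (sB σ) v).1)) ∧
    Rep N (fun σ => coeff (ind (univ : Finset (Fin N)))
      (EvenBlock.ev (sA σ) (sB σ) u * (EvenBlock.EO (sA σ) (sB σ) v).2)) := by
  induction v with
  | nil =>
    intro u
    refine ⟨?_, ?_⟩
    · simp only [EvenBlock.EO, mul_one]
      exact Rep.ev u
    · simp only [EvenBlock.EO, mul_zero, map_zero]
      exact Rep.zero N
  | cons b v ih =>
    intro u
    cases b
    · refine ⟨?_, ?_⟩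
      · have := (ih (u ++ [false])).1.add (ih (u ++ [true])).2
        simp only [ev_snoc_true, ev_snoc_false, ← map_add] at this
        simp only [EvenBlock.EO]
        convert this using 3
        ring
      · have := (ih (u ++ [false])).2.add (ih (u ++ [true])).1
        simp only [ev_snoc_true, ev_snoc_false, ← map_add] at this
        simp only [EvenBlock.EO]
        convert this using 3
        ring
    · refine ⟨?_, ?_⟩
      · have := ((ih (u ++ [true])).1.add (ih (u ++ [true] ++ [false])).2).add
          (ih (u ++ [true] ++ [true])).1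
        simp only [ev_snoc_true, ev_snoc_false, ← map_add] at this
        simp only [EvenBlock.EO]
        convert this using 3
        ring
      · have := ((ih (u ++ [true])).2.add (ih (u ++ [true] ++ [false])).1).add
          (ih (u ++ [true] ++ [true])).2
        simp only [ev_snoc_true, ev_snoc_false, ← map_add] at this
        simp only [EvenBlock.EO]
        convert this using 3
        ring

lemma Rep.FF {N : ℕ} (k : ℕ) :
    Rep N (fun σ => coeff (ind (univ : Finset (Fin N))) (EvenBlock.FF (sA σ) (sB σ) k)) := by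
  simp only [EvenBlock.FF, map_list_sum, List.map_map, Function.comp_def]
  apply Rep.list_sum
  intro p _
  exact (Rep.EO p.2 p.1).1

lemma Rep.chi {n : ℕ} (hn : 0 < n) (k : ℕ) :
    Rep (2 * n) (fun σ => EvenBlock.chi k σ) := by
  have h : ∀ σ : Equiv.Perm (Fin (2 * n)), EvenBlock.chi k σ =
      coeff (ind (univ : Finset (Fin (2 * n)))) (EvenBlock.FF (sA σ) (sB σ) k) := by
    intro σ
    apply main_chi k (Fin (2 * n)) σ
    · rw [Fintype.card_fin]; exact even_two_mul n
    · rw [Fintype.card_fin]; omega
  simp only [h]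
  exact Rep.FF k

lemma finsum_eq_chi {N : ℕ} (k : ℕ) (σ : Equiv.Perm (Fin N)) :
    (∑ᶠ (C : Finset (Setoid (Fin N)))
              (_ : IsChain (· ≤ ·) (C : Set (Setoid (Fin N))) ∧
                   (∀ r ∈ C, ∃ j : ℕ, 1 ≤ j ∧ j ≤ k ∧ Nat.card (Quotient r) = 2 * j) ∧
                   (∀ r ∈ C, Setoid.comap (⇑σ) r ∈ C)),
              (-1 : ℤ) ^ (k + C.card)) = chi k σ := by
  classical
  have h1 : ∀ C : Finset (Setoid (Fin N)), (IsChain (· ≤ ·) (C : Set (Setoid (Fin N))) ∧
                   (∀ r ∈ C, ∃ j : ℕ, 1 ≤ j ∧ j ≤ k ∧ Nat.card (Quotient r) = 2 * j) ∧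
                   (∀ r ∈ C, Setoid.comap (⇑σ) r ∈ C)) ↔ ChainP k σ C := by
    intro C
    constructor
    · rintro ⟨h1, h2, h3⟩
      refine ⟨h1, h2, ?_⟩
      intro r hr
      have hc : Nat.card (Quotient (Setoid.comap σ r)) = Nat.card (Quotient r) := by
        apply Nat.card_congr
        refine (Setoid.comapQuotientEquiv σ r).trans ?_
        refine (Equiv.setCongr ?_).trans (Equiv.Set.univ _)
        rw [Set.range_eq_univ]
        exact Quotient.mk_surjective.comp σ.surjective
      rcases h1.total (h3 r hr) hr with h | h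
      · exact eq_of_card_quot h hc.symm
      · exact (eq_of_card_quot h hc).symm
    · rintro ⟨h1, h2, h3⟩
      refine ⟨h1, h2, ?_⟩
      intro r hr
      rw [h3 r hr]
      exact hr
  rw [finsum_eq_sum_of_fintype, chi, Finset.sum_filter]
  apply Finset.sum_congr rfl
  intro C _
  rw [finsum_eq_if]
  simp only [h1]

end Pool.Agent.Helper30.EvenBlock
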