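import Mathlib

set_option autoImplicit false

namespace Pool.Agent.Helper30.EvenBlock

/-- Words in two letters: `true` is the letter `x` (weight two) and `false` is the letter `y`
(weight one). -/
abbrev Word := List Bool

section semiring

variable {R : Type*} [CommSemiring R] (A B : R)

/-- The product of the letters of a word. -/
def ev (w : Word) : R := (w.map (fun b => if b then A else B)).prod

@[simp] lemma ev_nil : ev A B [] = 1 := by simp [ev]
@[simp] lemma ev_true (w : Word) : ev A B (true :: w) = A * ev A B w := by simp [ev]
@[simp] lemma ev_false (w : Word) : ev A B (false :: w) = B * ev A B w := by simp [ev]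
lemma ev_append (u v : Word) : ev A B (u ++ v) = ev A B u * ev A B v := by simp [ev]

/-- Sum over refinements: first component even number of moves, second component odd. -/
def EO : Word → R × R
  | [] => (1, 0)
  | true :: w => (A * (EO w).1 + A * B * (EO w).2 + A * A * (EO w).1,
                  A * (EO w).2 + A * B * (EO w).1 + A * A * (EO w).2)
  | false :: w => (B * (EO w).1 + A * (EO w).2, B * (EO w).2 + A * (EO w).1)

/-- Weight of a word. -/
def wt : Word → ℕ
  | [] => 0
  | true :: w => wt w + 2
  | false :: w => wt w + 1

lemma wt_append (u v : Word) : wt (u ++ v) = wt u + wt v := by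
  induction u with
  | nil => simp [wt]
  | cons b u ih => cases b <;> simp [wt, ih] <;> ring

/-- One-move decompositions. -/
def D : Word → List (Word × Word)
  | [] => []
  | true :: w => ([true], false :: w) :: (D w).map (fun p => (true :: p.1, p.2))
  | false :: w => ([true], w) :: (D w).map (fun p => (false :: p.1, p.2))

lemma EO_snd (w : Word) :
    (EO A B w).2 = ((D w).map (fun p => ev A B p.1 * (EO A B p.2).1)).sum := by
  induction w with
  | nil => simp [EO, D]
  | cons b w ih =>
    cases b
    · simp only [EO, D, List.map_cons, List.sum_cons, List.map_map, Function.comp_def, ev_false,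
        ev_true, ev_nil]
      rw [ih, ← List.sum_map_mul_left]
      simp only [mul_assoc, mul_one]
      rw [add_comm]
    · simp only [EO, D, List.map_cons, List.sum_cons, List.map_map, Function.comp_def,
        ev_true, ev_nil]
      rw [show (List.map (fun p => A * ev A B p.1 * (EO A B p.2).1) (D w)).sum
        = A * (EO A B w).2 by
          rw [ih, ← List.sum_map_mul_left]; simp only [mul_assoc]]
      ring

/-- Decompositions of moves whose first move lies in `u`. -/
def D₂ : Word → Word → List (Word × Word)
  | [], _ => []
  | true :: u, v => ([true], false :: (u ++ v)) :: (D₂ u v).map (fun p => (true :: p.1, p.2))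
  | false :: u, v => ([true], u ++ v) :: (D₂ u v).map (fun p => (false :: p.1, p.2))

lemma EO_fst_append (u v : Word) :
    (EO A B (u ++ v)).1 = ev A B u * (EO A B v).1 +
      ((D₂ u v).map (fun p => ev A B p.1 * (EO A B p.2).2)).sum := by
  induction u with
  | nil => simp [D₂]
  | cons b u ih =>
    cases b
    · simp only [List.cons_append, EO, D₂, List.map_cons, List.sum_cons, List.map_map,
        Function.comp_def, ev_false, ev_true, ev_nil]
      rw [show (List.map (fun p => B * ev A B p.1 * (EO A B p.2).2) (D₂ u v)).sum
        = B * (List.map (fun p => ev A B p.1 * (EO A B p.2).2) (D₂ u v)).sum by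
          rw [← List.sum_map_mul_left]; simp only [mul_assoc]]
      rw [ih]; ring
    · simp only [List.cons_append, EO, D₂, List.map_cons, List.sum_cons, List.map_map,
        Function.comp_def, ev_true, ev_nil]
      rw [show (List.map (fun p => A * ev A B p.1 * (EO A B p.2).2) (D₂ u v)).sum
        = A * (List.map (fun p => ev A B p.1 * (EO A B p.2).2) (D₂ u v)).sum by
          rw [← List.sum_map_mul_left]; simp only [mul_assoc]]
      rw [ih]; ring

/-- All two-move decompositions with first move in `u`. -/
def nxt (p : Word × Word) : List (Word × Word) :=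
  (D₂ p.1 p.2).flatMap (fun q => (D q.2).map (fun r => (q.1 ++ r.1, r.2)))

/-- The list of pairs. -/
def LL : ℕ → List (Word × Word)
  | 0 => [([true], [])]
  | k + 1 => (LL k).flatMap nxt

/-- The total. -/
def FF (k : ℕ) : R := ((LL k).map (fun p => ev A B p.1 * (EO A B p.2).1)).sum

lemma wt_D (w : Word) : ∀ p ∈ D w, wt p.1 + wt p.2 = wt w + 1 := by
  induction w with
  | nil => simp [D]
  | cons b w ih =>
    cases b <;> simp only [D, List.mem_cons, List.mem_map] <;> rintro p (rfl | ⟨q, hq, rfl⟩)
    · simp [wt]; ring
    · have := ih q hq
      simp [wt]; omega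
    · simp [wt]; ring
    · have := ih q hq
      simp [wt]; omega

lemma wt_D₂ (u v : Word) : ∀ p ∈ D₂ u v, wt p.1 + wt p.2 = wt u + wt v + 1 := by
  induction u with
  | nil => simp [D₂]
  | cons b u ih =>
    cases b <;> simp only [D₂, List.mem_cons, List.mem_map] <;> rintro p (rfl | ⟨q, hq, rfl⟩)
    · simp [wt, wt_append]; ring
    · have := ih q hq
      simp [wt]; omega
    · simp [wt, wt_append]; ring
    · have := ih q hq
      simp [wt]; omega

lemma wt_nxt (p : Word × Word) : ∀ q ∈ nxt p, wt q.1 + wt q.2 = wt p.1 + wt p.2 + 2 := by
  intro q hq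
  simp only [nxt, List.mem_flatMap, List.mem_map] at hq
  obtain ⟨a, ha, r, hr, rfl⟩ := hq
  have h1 := wt_D₂ _ _ _ ha
  have h2 := wt_D _ _ hr
  simp only [wt_append]
  omega

lemma wt_LL (k : ℕ) : ∀ q ∈ LL k, wt q.1 + wt q.2 = 2 * (k + 1) := by
  induction k with
  | zero => simp [LL, wt]
  | succ k ih =>
    intro q hq
    simp only [LL, List.mem_flatMap] at hq
    obtain ⟨p, hp, hq⟩ := hq
    have h1 := ih _ hp
    have h2 := wt_nxt _ _ hq
    omega

lemma EO_nxt (u v : Word) :
    (EO A B (u ++ v)).1 = ev A B u * (EO A B v).1 +
      ((nxt (u, v)).map (fun p => ev A B p.1 * (EO A B p.2).1)).sum := by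
  rw [EO_fst_append]
  congr 1
  simp only [nxt, List.map_flatMap, List.map_map, Function.comp_def, ev_append]
  rw [List.flatMap_def, List.sum_flatten, List.map_map]
  congr 1
  apply List.map_congr_left
  intro p _
  simp only [Function.comp_def]
  rw [EO_snd, ← List.sum_map_mul_left]
  simp only [mul_assoc]

lemma FF_succ (k : ℕ) :
    ((LL k).map (fun p => (EO A B (p.1 ++ p.2)).1)).sum = FF A B k + FF A B (k + 1) := by
  simp only [FF, LL, List.map_flatMap]
  rw [List.flatMap_def, List.sum_flatten, List.map_map, ← List.sum_map_add]
  congr 1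
  apply List.map_congr_left
  intro p _
  simp only [Function.comp_def]
  rw [EO_nxt]

end semiring

end Pool.Agent.Helper30.EvenBlock
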